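import Pool.Agent.Helper6.H.Param
import Pool.Agent.Helper6.FixK.SumLevels
import Pool.Agent.Helper6.FixK.Levels

/-! The main count. -/

set_option linter.unusedSectionVars false

namespace Pool.Agent.Helper6.H

open Matrix Equiv Filter Topology Pool.Agent.Helper15.An Pool.Agent.Helper6.FixK
open scoped ComplexOrder

theorem ev_h7 (K : ℝ) (hK : 1 ≤ K) : ∃ m₀ : ℕ, ∀ m : ℕ, m₀ ≤ m →
    K ^ (2 + 5 * Nat.clog 2 (2 * m + 2)) ≤ Real.exp m := by
  obtain ⟨p, hp⟩ : ∃ p : ℕ, K ≤ 2 ^ p := by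
    obtain ⟨p, hp⟩ := pow_unbounded_of_one_lt K (show (1 : ℝ) < 2 by norm_num)
    exact ⟨p, hp.le⟩
  refine ⟨4 ^ p * 8 ^ (5 * p) * (5 * p + 1).factorial + 1, fun m hm => ?_⟩
  have hm1 : (1 : ℝ) ≤ m := by
    have : 1 ≤ m := by omega
    exact_mod_cast this
  have hm0 : (0 : ℝ) ≤ m := by linarith
  set g := Nat.clog 2 (2 * m + 2) with hg
  have hg1 : 1 ≤ g := by
    have h1 := Nat.clog_pos (b := 2) (n := 2 * m + 2) (by norm_num) (by omega)
    omega
  have hg2 : (2 : ℝ) ^ g ≤ 8 * m := by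
    have h1 : 2 ^ (g - 1) < 2 * m + 2 :=
      Nat.pow_pred_clog_lt_self (b := 2) (x := 2 * m + 2) (by norm_num) (by omega)
    have h2 : 2 ^ g = 2 * 2 ^ (g - 1) := by
      rw [← pow_succ', Nat.sub_add_cancel hg1]
    have h3 : 2 ^ g ≤ 8 * m := by omega
    exact_mod_cast h3
  have h1 := Real.pow_div_factorial_le_exp (m : ℝ) hm0 (5 * p + 1)
  refine le_trans ?_ h1
  rw [le_div_iff₀ (by positivity)]
  have h2 : (((4 ^ p * 8 ^ (5 * p) * (5 * p + 1).factorial : ℕ)) : ℝ) ≤ m := by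
    have : 4 ^ p * 8 ^ (5 * p) * (5 * p + 1).factorial ≤ m := by omega
    exact_mod_cast this
  push_cast at h2
  calc K ^ (2 + 5 * g) * ((5 * p + 1).factorial : ℝ)
      ≤ (2 ^ p) ^ (2 + 5 * g) * ((5 * p + 1).factorial : ℝ) := by gcongr
    _ = 4 ^ p * (2 ^ g) ^ (5 * p) * ((5 * p + 1).factorial : ℝ) := by
        congr 1
        rw [← pow_mul, ← pow_mul, show (4 : ℝ) = 2 ^ 2 by norm_num, ← pow_mul, ← pow_add]
        congr 1
        ring
    _ ≤ 4 ^ p * (8 * m) ^ (5 * p) * ((5 * p + 1).factorial : ℝ) := by gcongr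
    _ = (4 ^ p * 8 ^ (5 * p) * ((5 * p + 1).factorial : ℝ)) * (m : ℝ) ^ (5 * p) := by
        rw [mul_pow]; ring
    _ ≤ m * (m : ℝ) ^ (5 * p) := by gcongr
    _ = (m : ℝ) ^ (5 * p + 1) := by rw [pow_succ]; ring

theorem eventually_bigN2 (κ a c : ℝ) (k : ℕ) (hκ : 0 < κ) (hc : 0 < c) (hk : 1 ≤ k) :
    ∀ᶠ L : ℝ in atTop, BigN2 κ a c k L := by
  have hexp : ∀ (b C : ℝ), 0 < b → ∀ᶠ L : ℝ in atTop, C ≤ Real.exp (b * L) := by
    intro b C hb
    filter_upwards [eventually_ge_atTop (C / b), eventually_ge_atTop 0] with L hL h0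
    have h1 : C ≤ b * L := by
      rw [div_le_iff₀ hb] at hL
      linarith
    have := Real.add_one_le_exp (b * L)
    linarith
  have hquad : ∀ (b C : ℝ), 0 < b → 0 ≤ C → ∀ᶠ L : ℝ in atTop, C * L ^ 2 ≤ Real.exp (b * L) := by
    intro b C hb hC
    filter_upwards [eventually_ge_atTop (6 * C / b ^ 3), eventually_ge_atTop 0] with L hL h0
    have h1 := Real.pow_div_factorial_le_exp (b * L) (by positivity) 3
    refine le_trans ?_ h1
    rw [div_le_iff₀ (by positivity)] at hL
    rw [le_div_iff₀ (by positivity)]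
    have h2 : ((3 : ℕ).factorial : ℝ) = 6 := by norm_num [Nat.factorial]
    rw [h2, mul_pow]
    calc C * L ^ 2 * 6 = (6 * C) * L ^ 2 := by ring
      _ ≤ (L * b ^ 3) * L ^ 2 := by gcongr
      _ = b ^ 3 * L ^ 3 := by ring
  have hK1 : 1 ≤ Real.sqrt (2 * k) := by
    apply Real.le_sqrt_of_sq_le
    have : (1 : ℝ) ≤ k := by exact_mod_cast hk
    linarith
  obtain ⟨m₀, hm₀⟩ := ev_h7 _ hK1
  filter_upwards [eventually_ge_atTop 1, eventually_ge_atTop (1 / c),
    hexp (κ / 8) (2 * (Real.exp (2 * a) * (2 ^ k + 1))) (by positivity),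
    hquad (2 * κ) (4 * (2 * c + 3) ^ 2) (by positivity) (by positivity),
    hexp (κ / 2) 18 (by positivity),
    hquad κ (720 * (2 * c + 3)) hκ (by positivity), hexp κ 4 hκ,
    eventually_ge_atTop (m₀ / (2 * c))] with L h0 h1 h2 h3 h4 h5 h6 h7
  refine ⟨h0, ?_, ?_, h3, ?_, h5, h6, ?_, ?_⟩
  · rw [div_le_iff₀ hc] at h1; linarith
  · convert h2 using 2; ring
  · convert h4 using 2; ring
  · intro m hm
    apply hm₀
    rw [div_le_iff₀ (by positivity)] at h7
    have : (m₀ : ℝ) ≤ m := by linarith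
    exact_mod_cast this
  · refine le_trans ?_ h5
    have h8 : L ≤ L ^ 2 := by nlinarith
    have h9 : (2 * c + 3) * L ≤ (2 * c + 3) * L ^ 2 := by gcongr
    have h10 : 0 ≤ (2 * c + 3) * L ^ 2 := by positivity
    linarith

/-- few bad tuples -/
theorem bad_count2 {α κ a c c' : ℝ} {k : ℕ} (P : Par2 α κ a c c' k) {n : ℕ} (hn : 2 ≤ n)
    (hb : BigN2 κ a c k (Real.log n)) (p : ℕ) (hp : (p : ℝ) ≤ Real.exp (α * Real.log n))
    (θ' η : ℝ) (B t : ℕ) (hB0 : 0 < B)
    (hB : 3 ≤ c' * (θ' - Real.exp (-a)) * B)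
    (hη : η * ((B * k + t : ℕ) : ℝ) ≤ B * k * (1 - θ')) (F : PW (Perm (Fin n))) :
    (Nat.card {z : Fin (B * k + t) → Alt n // ¬ Good F (tupW z) p η} : ℝ) ≤
      (Fintype.card (Alt n) : ℝ) ^ (B * k + t) * (2 ^ (B + 1) / n) := by
  have hk0 : 0 < k := by
    have := P.hk2
    omega
  have hn0 : (0 : ℝ) < n := by
    have : 0 < n := by omega
    exact_mod_cast this
  have hL0 : 0 ≤ Real.log n := le_trans zero_le_one hb.hL
  have hpn : p ≤ n := by
    have h1 : (p : ℝ) ≤ n := by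
      refine hp.trans ?_
      calc Real.exp (α * Real.log n) ≤ Real.exp (1 * Real.log n) := by
            apply Real.exp_le_exp.2
            refine mul_le_mul_of_nonneg_right ?_ hL0
            linarith [P.hκα, P.hκ]
        _ = n := by rw [one_mul, Real.exp_log hn0]
    exact_mod_cast h1
  refine (good_count F hB0 hk0 p θ' η hη).trans ?_
  have h1 := bgood_count F p hpn θ' (B := B) (k := k) (((Fintype.card (Alt n) : ℝ) ^ k) ^ B)
    (by positivity) (fun r => 2 ^ B * Real.exp (-(3 * r * Real.log n)))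
    (fun r => by positivity) (fun i r hr0 hrp hf hnf =>
      level_tail2 P hn hb hr0 (le_trans (by exact_mod_cast hrp) hp) (F.irr i) hf hnf θ' B hB)
  calc _ ≤ (((Fintype.card (Alt n) : ℝ) ^ k) ^ B *
        ∑ r ∈ Finset.Icc 1 p, (2 ^ B * Real.exp (-(3 * r * Real.log n))) * (2 * (n : ℝ) ^ r)) *
          (Fintype.card (Alt n) : ℝ) ^ t := by gcongr
    _ ≤ (((Fintype.card (Alt n) : ℝ) ^ k) ^ B * (2 ^ (B + 1) / n)) *
          (Fintype.card (Alt n) : ℝ) ^ t := by
        have := sum_levels n p B (by omega) hpn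
        gcongr
    _ = _ := by
        have h2 : ((Fintype.card (Alt n) : ℝ) ^ k) ^ B = (Fintype.card (Alt n) : ℝ) ^ (B * k) := by
          rw [← pow_mul, mul_comm]
        rw [h2, pow_add]; ring

/-- the main probabilistic statement -/
theorem main2 (α ε : ℝ) (hα : α < 1 / 2) (hε : ε < 1) : ∃ K : ℕ, ∀ k : ℕ, K ≤ k →
    Tendsto (fun n : ℕ => (Nat.card {x : Fin k → Alt n // ∀ r : ℕ, (r : ℝ) ≤ (n : ℝ) ^ α →
      GroupGap x r ε ∧ TupleGap x r ε} : ℝ) / Nat.card (Fin k → Alt n)) atTop (𝓝 1) := by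
  -- normalised exponents
  set α' : ℝ := max α 0 with hα'
  have hα'0 : 0 ≤ α' := le_max_right _ _
  have hα'1 : α' < 1 / 2 := max_lt hα (by norm_num)
  set η : ℝ := 1 - max ε (1 / 2) with hη
  have hη0 : 0 < η := by
    have : max ε (1 / 2) < 1 := max_lt hε (by norm_num)
    linarith
  have hη1 : η ≤ 1 / 2 := by
    have := le_max_right ε (1 / 2)
    linarith
  -- constants
  set κ : ℝ := (1 - 2 * α') / 4 with hκ
  have hκ0 : 0 < κ := by
    have : 0 < 1 - 2 * α' := by linarith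
    positivity
  set a : ℝ := Real.log (4 / η) with ha
  have ha0 : 0 < a := by
    apply Real.log_pos
    rw [lt_div_iff₀ hη0]
    linarith
  have hexpa : Real.exp (-a) = η / 4 := by
    rw [Real.exp_neg, ha, Real.exp_log (by positivity), inv_div]
  set c : ℝ := κ / (8 * a) with hc
  have hc0 : 0 < c := by positivity
  set c' : ℝ := min c (κ / 8) with hc'
  have hc'0 : 0 < c' := lt_min hc0 (by positivity)
  set k0 : ℕ := ⌈(32 * Real.exp (a + 2)) ^ 10⌉₊ + 2 with hk0
  have P : Par2 α' κ a c c' k0 :=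
    { hα := hα'0
      hκ := hκ0
      hκα := by rw [hκ]; ring
      ha := ha0
      hc := hc0
      hca := by rw [hc]; field_simp
      hc' := hc'0
      hc'c := min_le_left _ _
      hc'κ := by
        have := min_le_right c (κ / 8)
        linarith
      hk := by
        have h1 : (32 * Real.exp (a + 2)) ^ 10 ≤ k0 := by
          rw [hk0]; push_cast
          have := Nat.le_ceil ((32 * Real.exp (a + 2)) ^ 10)
          linarith
        have h2 : (1 : ℝ) ≤ k0 := by
          rw [hk0]; push_cast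
          have : (0 : ℝ) ≤ (⌈(32 * Real.exp (a + 2)) ^ 10⌉₊ : ℝ) := Nat.cast_nonneg _
          linarith
        have h3 : 1 ≤ Real.sqrt (2 * k0) := by
          apply Real.le_sqrt_of_sq_le
          linarith
        calc (32 * Real.exp (a + 2)) ^ 10 ≤ k0 := h1
          _ ≤ 2 * k0 := by linarith
          _ = Real.sqrt (2 * k0) ^ 2 := (Real.sq_sqrt (by positivity)).symm
          _ ≤ Real.sqrt (2 * k0) ^ 9 := pow_le_pow_right₀ h3 (by norm_num)
      hk2 := by rw [hk0]; omega }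
  have hk0pos : 0 < k0 := by rw [hk0]; omega
  have hk0r : (0 : ℝ) < k0 := by exact_mod_cast hk0pos
  set B0 : ℕ := ⌈3 / (c' * (η / 4))⌉₊ + ⌈2 / η⌉₊ + 1 with hB0
  refine ⟨k0 * B0, fun k hk => ?_⟩
  set B := k / k0 with hB
  set t := k % k0 with ht
  have hkeq : k = B * k0 + t := by
    rw [hB, ht, mul_comm]
    exact (Nat.div_add_mod k k0).symm
  have htk : t < k0 := Nat.mod_lt _ hk0pos
  have hBB0 : B0 ≤ B := by
    rw [hB, Nat.le_div_iff_mul_le hk0pos, mul_comm]
    exact hk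
  have hBr : (⌈3 / (c' * (η / 4))⌉₊ : ℝ) + ⌈2 / η⌉₊ + 1 ≤ B := by
    have h1 : (B0 : ℝ) ≤ B := by exact_mod_cast hBB0
    rw [hB0] at h1
    push_cast at h1
    exact h1
  have hce1 : 3 / (c' * (η / 4)) ≤ (⌈3 / (c' * (η / 4))⌉₊ : ℝ) := Nat.le_ceil _
  have hce2 : 2 / η ≤ (⌈2 / η⌉₊ : ℝ) := Nat.le_ceil _
  have hpos1 : 0 < 3 / (c' * (η / 4)) := by positivity
  have hpos2 : 0 < 2 / η := by positivity
  have hBpos : 0 < B := by
    have : 0 < B0 := by rw [hB0]; omega
    omega
  have hB3 : 3 ≤ c' * (η / 2 - Real.exp (-a)) * B := by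
    rw [hexpa]
    have h1 : 3 / (c' * (η / 4)) ≤ B := by linarith
    rw [div_le_iff₀ (by positivity)] at h1
    calc (3 : ℝ) ≤ B * (c' * (η / 4)) := h1
      _ = c' * (η / 2 - η / 4) * B := by ring
  have hηB : (1 - η) * ((B * k0 + t : ℕ) : ℝ) ≤ B * k0 * (1 - η / 2) := by
    have h1 : 2 / η ≤ B := by linarith
    rw [div_le_iff₀ hη0] at h1
    have h2 : (t : ℝ) ≤ k0 := by exact_mod_cast htk.le
    have h3 : (k0 : ℝ) * 2 ≤ k0 * (B * η) := mul_le_mul_of_nonneg_left h1 hk0r.le
    push_cast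
    have h4 : 0 ≤ (t : ℝ) := Nat.cast_nonneg t
    nlinarith
  -- the limit
  have hlim : Tendsto (fun n : ℕ => 1 - (2 : ℝ) ^ (B + 1) / n) atTop (𝓝 1) := by
    have h5 : Tendsto (fun n : ℕ => (2 : ℝ) ^ (B + 1) / (n : ℝ)) atTop (𝓝 0) :=
      tendsto_const_div_atTop_nhds_zero_nat _
    simpa using h5.const_sub 1
  have hlog : Tendsto (fun n : ℕ => Real.log n) atTop atTop :=
    Real.tendsto_log_atTop.comp tendsto_natCast_atTop_atTop
  have hbig : ∀ᶠ n : ℕ in atTop, BigN2 κ a c k0 (Real.log n) :=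
    hlog.eventually (eventually_bigN2 κ a c k0 hκ0 hc0 hk0pos)
  refine tendsto_of_tendsto_of_tendsto_of_le_of_le' hlim tendsto_const_nhds ?_ ?_
  · filter_upwards [hbig, eventually_ge_atTop 8] with n hb hn8
    obtain ⟨F⟩ := exists_pw (Equiv.Perm (Fin n))
    have hn0 : (0 : ℝ) < n := by
      have : 0 < n := by omega
      exact_mod_cast this
    have hn1 : (1 : ℝ) ≤ n := by
      have : 1 ≤ n := by omega
      exact_mod_cast this
    set p := ⌊(n : ℝ) ^ α'⌋₊ with hp
    have hexp : (n : ℝ) ^ α' = Real.exp (α' * Real.log n) := by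
      rw [Real.rpow_def_of_pos hn0, mul_comm]
    have hp1 : (p : ℝ) ≤ Real.exp (α' * Real.log n) := by
      rw [← hexp]
      exact Nat.floor_le (by positivity)
    have hbad : (Nat.card {z : Fin k → Alt n // ¬ Good F (tupW z) p (1 - η)} : ℝ) ≤
        (Fintype.card (Alt n) : ℝ) ^ k * (2 ^ (B + 1) / n) := by
      have h1 := bad_count2 P (by omega) hb p hp1 (η / 2) (1 - η) B t hBpos hB3 hηB F
      rw [← hkeq] at h1
      exact h1
    -- good tuples have gaps
    have hgap : ∀ z : Fin k → Alt n, Good F (tupW z) p (1 - η) → ∀ r : ℕ,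
        (r : ℝ) ≤ (n : ℝ) ^ α → GroupGap z r ε ∧ TupleGap z r ε := by
      intro z hz r hr
      have hr' : (r : ℝ) ≤ (n : ℝ) ^ α' :=
        hr.trans (Real.rpow_le_rpow_of_exponent_le hn1 (le_max_left _ _))
      have hrp : r ≤ p := Nat.le_floor hr'
      have h1 := groupGap_of_good F z p (1 - η) hz
      have h2 : GroupGap z r ε := by
        refine (h1.mono hrp).anti ?_
        rw [hη]
        have := le_max_left ε (1 / 2)
        linarith
      refine ⟨h2, tupleGap_of_groupGap z ?_ h2⟩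
      -- r + 2 ≤ n
      have h3 : (r : ℝ) * 4 ≤ n := by
        calc (r : ℝ) * 4 ≤ Real.exp (α' * Real.log n) * Real.exp (κ * Real.log n) := by
              have := hb.h6
              rw [hexp] at hr'
              gcongr
          _ = Real.exp ((α' + κ) * Real.log n) := by rw [← Real.exp_add]; congr 1; ring
          _ ≤ Real.exp (1 * Real.log n) := by
              apply Real.exp_le_exp.2
              refine mul_le_mul_of_nonneg_right ?_ (le_trans zero_le_one hb.hL)
              rw [hκ]; linarith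
          _ = n := by rw [one_mul, Real.exp_log hn0]
      have h4 : r * 4 ≤ n := by exact_mod_cast h3
      omega
    have hcards : (Nat.card (Fin k → Alt n) : ℝ) = (Fintype.card (Alt n) : ℝ) ^ k := by
      rw [Nat.card_eq_fintype_card, Fintype.card_fun, Fintype.card_fin]; push_cast; rfl
    have hN : (0 : ℝ) < (Fintype.card (Alt n) : ℝ) ^ k := by
      have : (0 : ℝ) < Fintype.card (Alt n) := card_pos' (Alt n)
      positivity
    rw [hcards, le_div_iff₀ hN]
    classical
    have hsplit : (Nat.card (Fin k → Alt n) : ℝ) ≤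
        (Nat.card {x : Fin k → Alt n // ∀ r : ℕ, (r : ℝ) ≤ (n : ℝ) ^ α →
          GroupGap x r ε ∧ TupleGap x r ε} : ℝ) +
        Nat.card {z : Fin k → Alt n // ¬ Good F (tupW z) p (1 - η)} := by
      have h1 : Nat.card (Fin k → Alt n) =
          Nat.card {z : Fin k → Alt n // Good F (tupW z) p (1 - η)} +
          Nat.card {z : Fin k → Alt n // ¬ Good F (tupW z) p (1 - η)} := by
        rw [Nat.card_eq_fintype_card, Nat.card_eq_fintype_card, Nat.card_eq_fintype_card,
          Fintype.card_subtype_compl]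
        have := Fintype.card_subtype_le (fun z : Fin k → Alt n => Good F (tupW z) p (1 - η))
        omega
      have h2 : Nat.card {z : Fin k → Alt n // Good F (tupW z) p (1 - η)} ≤
          Nat.card {x : Fin k → Alt n // ∀ r : ℕ, (r : ℝ) ≤ (n : ℝ) ^ α →
            GroupGap x r ε ∧ TupleGap x r ε} :=
        Nat.card_le_card_of_injective (fun z => ⟨z.1, hgap z.1 z.2⟩) (by
          intro x y hxy
          have := congrArg Subtype.val hxy
          exact Subtype.ext this)
      rw [h1]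
      push_cast
      have h3 : (Nat.card {z : Fin k → Alt n // Good F (tupW z) p (1 - η)} : ℝ) ≤
          Nat.card {x : Fin k → Alt n // ∀ r : ℕ, (r : ℝ) ≤ (n : ℝ) ^ α →
            GroupGap x r ε ∧ TupleGap x r ε} := by exact_mod_cast h2
      linarith
    rw [hcards] at hsplit
    nlinarith
  · filter_upwards [eventually_ge_atTop 1] with n hn
    have hcards : (0 : ℝ) < Nat.card (Fin k → Alt n) := by
      have : 0 < Nat.card (Fin k → Alt n) := Nat.card_pos
      exact_mod_cast this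
    rw [div_le_one hcards]
    have := Nat.card_le_card_of_injective
      (fun x : {x : Fin k → Alt n // ∀ r : ℕ, (r : ℝ) ≤ (n : ℝ) ^ α →
        GroupGap x r ε ∧ TupleGap x r ε} => x.1) Subtype.val_injective
    exact_mod_cast this

end Pool.Agent.Helper6.H
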