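import Pool.Agent.Helper6.H.Main
import Pool.Agent.Helper6.T5.Cls
import Pool.Agent.Helper6.T5.Word

/-! The diameter of the alternating group with respect to a fixed number of random elements:
the exponent `3/2`. -/

set_option linter.unusedSectionVars false

namespace Pool.Agent.Helper6.H

open Matrix Equiv Filter Topology Pool.Agent.Helper15.An Pool.Agent.Helper6.FixK
open Pool.Agent.Helper6.T5
open scoped ComplexOrder

/-- good tuples, with the count -/
theorem main_good2 (α : ℝ) (hα0 : 0 ≤ α) (hα : α < 1 / 2) : ∃ K : ℕ, ∀ k : ℕ, K ≤ k → ∃ C : ℝ,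
    0 ≤ C ∧ ∀ᶠ n : ℕ in atTop, ∀ F : PW (Perm (Fin n)),
      (Nat.card {z : Fin k → Alt n // ¬ Good F (tupW z) ⌊(n : ℝ) ^ α⌋₊ (1 / 2)} : ℝ) ≤
        (Fintype.card (Alt n) : ℝ) ^ k * (C / n) := by
  -- constants
  set η : ℝ := 1 / 2 with hη
  have hη0 : 0 < η := by norm_num
  have hη1 : η ≤ 1 / 2 := le_refl _
  set κ : ℝ := (1 - 2 * α) / 4 with hκ
  have hκ0 : 0 < κ := by
    have : 0 < 1 - 2 * α := by
      have := hα.trans_eq hη
      linarith
    positivity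
  set a : ℝ := Real.log (4 / η) with ha
  have ha0 : 0 < a := by
    apply Real.log_pos
    rw [hη]
    norm_num
  have hexpa : Real.exp (-a) = η / 4 := by
    rw [Real.exp_neg, ha, Real.exp_log (by positivity), inv_div]
  set c : ℝ := κ / (8 * a) with hc
  have hc0 : 0 < c := by positivity
  set c' : ℝ := min c (κ / 8) with hc'
  have hc'0 : 0 < c' := lt_min hc0 (by positivity)
  set k0 : ℕ := ⌈(32 * Real.exp (a + 2)) ^ 10⌉₊ + 2 with hk0
  have P : Par2 α κ a c c' k0 :=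
    { hα := hα0
      hκ := hκ0
      hκα := by rw [hκ]; ring
      ha := ha0
      hc := hc0
      hca := by rw [hc]; field_simp
      hc' := hc'0
      hc'c := min_le_left _ _
      hc'κ := by
        have := min_le_right c (κ / 8)
        linarith
      hk := by
        have h1 : (32 * Real.exp (a + 2)) ^ 10 ≤ k0 := by
          rw [hk0]; push_cast
          have := Nat.le_ceil ((32 * Real.exp (a + 2)) ^ 10)
          linarith
        have h2 : (1 : ℝ) ≤ k0 := by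
          rw [hk0]; push_cast
          have : (0 : ℝ) ≤ (⌈(32 * Real.exp (a + 2)) ^ 10⌉₊ : ℝ) := Nat.cast_nonneg _
          linarith
        have h3 : 1 ≤ Real.sqrt (2 * k0) := by
          apply Real.le_sqrt_of_sq_le
          linarith
        calc (32 * Real.exp (a + 2)) ^ 10 ≤ k0 := h1
          _ ≤ 2 * k0 := by linarith
          _ = Real.sqrt (2 * k0) ^ 2 := (Real.sq_sqrt (by positivity)).symm
          _ ≤ Real.sqrt (2 * k0) ^ 9 := pow_le_pow_right₀ h3 (by norm_num)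
      hk2 := by rw [hk0]; omega }
  have hk0pos : 0 < k0 := by rw [hk0]; omega
  have hk0r : (0 : ℝ) < k0 := by exact_mod_cast hk0pos
  set B0 : ℕ := ⌈3 / (c' * (η / 4))⌉₊ + ⌈2 / η⌉₊ + 1 with hB0
  refine ⟨k0 * B0, fun k hk => ?_⟩
  set B := k / k0 with hB
  set t := k % k0 with ht
  have hkeq : k = B * k0 + t := by
    rw [hB, ht, mul_comm]
    exact (Nat.div_add_mod k k0).symm
  have htk : t < k0 := Nat.mod_lt _ hk0pos
  have hBB0 : B0 ≤ B := by
    rw [hB, Nat.le_div_iff_mul_le hk0pos, mul_comm]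
    exact hk
  have hBr : (⌈3 / (c' * (η / 4))⌉₊ : ℝ) + ⌈2 / η⌉₊ + 1 ≤ B := by
    have h1 : (B0 : ℝ) ≤ B := by exact_mod_cast hBB0
    rw [hB0] at h1
    push_cast at h1
    exact h1
  have hce1 : 3 / (c' * (η / 4)) ≤ (⌈3 / (c' * (η / 4))⌉₊ : ℝ) := Nat.le_ceil _
  have hce2 : 2 / η ≤ (⌈2 / η⌉₊ : ℝ) := Nat.le_ceil _
  have hpos1 : 0 < 3 / (c' * (η / 4)) := by positivity
  have hpos2 : 0 < 2 / η := by positivity
  have hBpos : 0 < B := by
    have : 0 < B0 := by rw [hB0]; omega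
    omega
  have hB3 : 3 ≤ c' * (η / 2 - Real.exp (-a)) * B := by
    rw [hexpa]
    have h1 : 3 / (c' * (η / 4)) ≤ B := by linarith
    rw [div_le_iff₀ (by positivity)] at h1
    calc (3 : ℝ) ≤ B * (c' * (η / 4)) := h1
      _ = c' * (η / 2 - η / 4) * B := by ring
  have hηB : (1 - η) * ((B * k0 + t : ℕ) : ℝ) ≤ B * k0 * (1 - η / 2) := by
    have h1 : 2 / η ≤ B := by linarith
    rw [div_le_iff₀ hη0] at h1
    have h2 : (t : ℝ) ≤ k0 := by exact_mod_cast htk.le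
    have h3 : (k0 : ℝ) * 2 ≤ k0 * (B * η) := mul_le_mul_of_nonneg_left h1 hk0r.le
    push_cast
    have h4 : 0 ≤ (t : ℝ) := Nat.cast_nonneg t
    nlinarith
  have hlog : Tendsto (fun n : ℕ => Real.log n) atTop atTop :=
    Real.tendsto_log_atTop.comp tendsto_natCast_atTop_atTop
  have hbig : ∀ᶠ n : ℕ in atTop, BigN2 κ a c k0 (Real.log n) :=
    hlog.eventually (eventually_bigN2 κ a c k0 hκ0 hc0 hk0pos)
  refine ⟨2 ^ (B + 1), by positivity, ?_⟩
  filter_upwards [hbig, eventually_ge_atTop 8] with n hb hn8 F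
  have hn0 : (0 : ℝ) < n := by
    have : 0 < n := by omega
    exact_mod_cast this
  have hexp : (n : ℝ) ^ α = Real.exp (α * Real.log n) := by
    rw [Real.rpow_def_of_pos hn0, mul_comm]
  have hp1 : ((⌊(n : ℝ) ^ α⌋₊ : ℕ) : ℝ) ≤ Real.exp (α * Real.log n) := by
    rw [← hexp]
    exact Nat.floor_le (by positivity)
  have h1 := bad_count2 P (by omega) hb _ hp1 (η / 2) (1 - η) B t hBpos hB3 hηB F
  rw [← hkeq] at h1
  have h2 : (1 - η : ℝ) = 1 / 2 := by rw [hη]; norm_num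
  rw [h2] at h1
  exact h1

/-- the numerical conditions of the last step -/
theorem ev_last2 (δ : ℝ) (hδ0 : 0 < δ) (hδ1 : δ ≤ 1 / 3) : ∀ᶠ n : ℕ in atTop,
    2 ^ 14 * (n : ℝ) ^ (1 / 2 - 3 / 4 * δ) ≤ (n : ℝ) ^ (1 / 2 - δ / 2) ∧
    270 * (Real.log n + 1) * (n : ℝ) ^ (3 / 2 + 3 / 4 * δ) ≤ (n : ℝ) ^ (3 / 2 + δ) ∧
    (20 : ℝ) ≤ (n : ℝ) ^ (1 / 2 - δ / 2) ∧ 4 * (n : ℝ) ^ (1 / 2 - δ / 2) ≤ n ∧
    (3 : ℝ) ≤ (n : ℝ) ^ (1 / 2 - 3 / 4 * δ) := by
  have hlog : Tendsto (fun n : ℕ => Real.log n) atTop atTop :=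
    Real.tendsto_log_atTop.comp tendsto_natCast_atTop_atTop
  have e1 := hlog.eventually (ev_exp (δ / 4) (2 ^ 14) (by positivity))
  have e2 := hlog.eventually (ev_quad (δ / 4) 270 (by positivity) (by norm_num))
  have e3 := hlog.eventually (ev_exp (1 / 6) 20 (by norm_num))
  have e4 := hlog.eventually (ev_exp (1 / 2) 4 (by norm_num))
  have e5 := hlog.eventually (ev_exp (1 / 12) 3 (by norm_num))
  filter_upwards [e1, e2, e3, e4, e5, eventually_ge_atTop 3] with n h1 h2 h3 h4 h5 hn3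
  have hn0 : (0 : ℝ) < n := by
    have : 0 < n := by omega
    exact_mod_cast this
  set L := Real.log n with hL
  have hL0 : 0 ≤ L := Real.log_nonneg (by
    have : 1 ≤ n := by omega
    exact_mod_cast this)
  have hexp : ∀ b : ℝ, (n : ℝ) ^ b = Real.exp (b * L) := fun b => by
    rw [Real.rpow_def_of_pos hn0, mul_comm]
  simp_rw [hexp]
  refine ⟨?_, ?_, ?_, ?_, ?_⟩
  · calc 2 ^ 14 * Real.exp ((1 / 2 - 3 / 4 * δ) * L) ≤
        Real.exp (δ / 4 * L) * Real.exp ((1 / 2 - 3 / 4 * δ) * L) := by gcongr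
      _ = _ := by rw [← Real.exp_add]; congr 1; ring
  · calc 270 * (L + 1) * Real.exp ((3 / 2 + 3 / 4 * δ) * L) ≤
        270 * (L + 1) ^ 2 * Real.exp ((3 / 2 + 3 / 4 * δ) * L) := by
          have : L + 1 ≤ (L + 1) ^ 2 := by nlinarith
          gcongr
      _ ≤ Real.exp (δ / 4 * L) * Real.exp ((3 / 2 + 3 / 4 * δ) * L) := by gcongr
      _ = _ := by rw [← Real.exp_add]; congr 1; ring
  · refine h3.trans (Real.exp_le_exp.2 ?_)
    nlinarith
  · have h6 : (n : ℝ) = Real.exp (1 / 2 * L) * Real.exp (1 / 2 * L) := by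
      rw [← Real.exp_add, ← Real.exp_log hn0]; congr 1; rw [← hL]; ring
    calc 4 * Real.exp ((1 / 2 - δ / 2) * L) ≤ Real.exp (1 / 2 * L) * Real.exp (1 / 2 * L) := by
          have : Real.exp ((1 / 2 - δ / 2) * L) ≤ Real.exp (1 / 2 * L) :=
            Real.exp_le_exp.2 (by nlinarith)
          gcongr
      _ = n := h6.symm
  · refine h5.trans (Real.exp_le_exp.2 ?_)
    nlinarith

/-- the deterministic conclusion, with real exponents -/
theorem smallDiam_of2 {δ : ℝ} (hδ0 : 0 < δ) (hδ1 : δ ≤ 1 / 3) {n k : ℕ} (hk : 0 < k)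
    (hn : 3 ≤ n)
    (hlast : 2 ^ 14 * (n : ℝ) ^ (1 / 2 - 3 / 4 * δ) ≤ (n : ℝ) ^ (1 / 2 - δ / 2) ∧
      270 * (Real.log n + 1) * (n : ℝ) ^ (3 / 2 + 3 / 4 * δ) ≤ (n : ℝ) ^ (3 / 2 + δ) ∧
      (20 : ℝ) ≤ (n : ℝ) ^ (1 / 2 - δ / 2) ∧ 4 * (n : ℝ) ^ (1 / 2 - δ / 2) ≤ n ∧
      (3 : ℝ) ≤ (n : ℝ) ^ (1 / 2 - 3 / 4 * δ))
    {s : ℕ} (hsp : s.Prime) (hs1 : (n : ℝ) ^ (1 / 2 - 3 / 4 * δ) ≤ s)
    (hs2 : (s : ℝ) ≤ (n : ℝ) ^ (1 / 2 - δ / 2)) (hdvd : ¬ s ∣ 2 * (n / 2))
    (F : PW (Perm (Fin n))) (z : Fin k → Alt n) (y : Alt n)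
    (hgood : Good F (tupW z) ⌊(n : ℝ) ^ (1 / 2 - δ / 2)⌋₊ (1 / 2))
    (l₀ : List (Fin k × Bool)) (hl₀ : l₀.length ≤ len n)
    (hw : y * evl z l₀ ∈ cls n (2 * (n / 2) - s) s) :
    SmallDiam (Fin.cons y z : Fin (k + 1) → Alt n) ((n : ℝ) ^ (3 / 2 + δ)) := by
  obtain ⟨h1, h2, h3, h4, h5⟩ := hlast
  have hn0 : (0 : ℝ) < n := by
    have : 0 < n := by omega
    exact_mod_cast this
  have hn1 : (1 : ℝ) ≤ n := by
    have : 1 ≤ n := by omega
    exact_mod_cast this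
  have hL0 : 0 ≤ Real.log n := Real.log_nonneg hn1
  set L := Real.log n with hL
  have hs3 : 3 ≤ s := by
    have : (3 : ℝ) ≤ s := h5.trans hs1
    exact_mod_cast this
  have hs4 : 4 * s ≤ n := by
    have : 4 * (s : ℝ) ≤ n := by linarith
    exact_mod_cast this
  have hodd : s % 2 = 1 := by
    rcases hsp.eq_two_or_odd with h | h
    · omega
    · exact h
  set τ := (s - 1) / 2 with hτ
  have hsτ : s = 2 * τ + 1 := by omega
  set M := 2 * (n / 2) - s with hM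
  have hM2 : 2 ≤ M := by omega
  have hMn : M ≤ n := by omega
  have hcop : Nat.Coprime M s := by
    rw [Nat.coprime_comm, Nat.Prime.coprime_iff_not_dvd hsp]
    intro h
    apply hdvd
    have h6 : 2 * (n / 2) = M + s := by omega
    rw [h6]
    exact Dvd.dvd.add h (dvd_refl s)
  -- the gap on tuples
  have hsp' : s ≤ ⌊(n : ℝ) ^ (1 / 2 - δ / 2)⌋₊ := Nat.le_floor hs2
  have hgap : TupleGap z s (1 / 2) :=
    tupleGap_of_groupGap z (by omega) ((groupGap_of_good F z _ _ hgood).mono hsp')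
  set t := ⌈5 * s * L⌉₊ with ht
  have ht1 : 5 * s * L ≤ t := Nat.le_ceil _
  have ht2 : (t : ℝ) ≤ 5 * s * L + 1 := (Nat.ceil_lt_add_one (by positivity)).le
  have hlog54 : (1 / 5 : ℝ) ≤ Real.log (5 / 4) := by
    have := Real.one_sub_inv_le_log_of_pos (show (0 : ℝ) < 5 / 4 by norm_num)
    norm_num at this
    linarith
  have hts : (n : ℝ) ^ s < 2 * (5 / 4) ^ t := by
    have h6 : (n : ℝ) ^ s = Real.exp (s * L) := by
      rw [Real.exp_nat_mul, hL, Real.exp_log hn0]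
    have h7 : (5 / 4 : ℝ) ^ t = Real.exp (t * Real.log (5 / 4)) := by
      rw [Real.exp_nat_mul, Real.exp_log (by norm_num)]
    have h8 : Real.exp (s * L) ≤ (5 / 4 : ℝ) ^ t := by
      rw [h7]
      apply Real.exp_le_exp.2
      have h9 : 5 * s * L * (1 / 5) ≤ t * Real.log (5 / 4) :=
        mul_le_mul ht1 hlog54 (by norm_num) (Nat.cast_nonneg _)
      linarith
    rw [h6]
    have := Real.exp_pos (s * L)
    linarith
  intro g
  obtain ⟨m, hm, l, hl, hlg⟩ := diam_bound hk z y hsτ (by omega) (by omega) hM2 hcop hgap hts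
    l₀ hl₀ (mem_cls.1 hw) g
  refine ⟨l, ?_, hlg⟩
  have hlm : (l.length : ℝ) ≤ m := by exact_mod_cast hl
  refine hlm.trans ?_
  -- numerics
  have hm' : (τ : ℝ) * m ≤ (n + 8 * τ ^ 2) * (M * (len n + 1) + 4 * t) := by exact_mod_cast hm
  have hsτr : (s : ℝ) = 2 * τ + 1 := by rw [hsτ]; push_cast; ring
  have hτ1 : (1 : ℝ) ≤ τ := by
    have : 1 ≤ τ := by omega
    exact_mod_cast this
  have hlen : (len n : ℝ) ≤ 6 * L + 1 := (Nat.ceil_lt_add_one (by positivity)).le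
  have hsn : (s : ℝ) ≤ n := by
    have : s ≤ n := by omega
    exact_mod_cast this
  have hMr : (M : ℝ) ≤ n := by exact_mod_cast hMn
  have hs13 : (s : ℝ) ^ 2 ≤ n := by
    have h6 : (s : ℝ) ≤ (n : ℝ) ^ (1 / 2 : ℝ) :=
      hs2.trans (Real.rpow_le_rpow_of_exponent_le hn1 (by linarith))
    calc (s : ℝ) ^ 2 ≤ ((n : ℝ) ^ (1 / 2 : ℝ)) ^ 2 := by gcongr
      _ = (n : ℝ) := by rw [← Real.rpow_natCast, ← Real.rpow_mul hn0.le]; norm_num
  have hA : (n : ℝ) + 8 * τ ^ 2 ≤ 3 * n := by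
    have h6 : 4 * (τ : ℝ) ^ 2 ≤ s ^ 2 := by rw [hsτr]; nlinarith
    linarith
  have hB : (M : ℝ) * (len n + 1) + 4 * t ≤ 30 * n * (L + 1) := by
    have h6 : (M : ℝ) * (len n + 1) ≤ n * (6 * (L + 1)) := by
      have : (len n : ℝ) + 1 ≤ 6 * (L + 1) := by linarith
      gcongr
    have h7 : 4 * (t : ℝ) ≤ 24 * n * (L + 1) := by
      have h8 : (s : ℝ) * L ≤ n * L := by gcongr
      nlinarith
    linarith
  have hC : (τ : ℝ) * m ≤ 90 * n ^ 2 * (L + 1) := by
    refine hm'.trans ?_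
    calc ((n : ℝ) + 8 * τ ^ 2) * (M * (len n + 1) + 4 * t) ≤ (3 * n) * (30 * n * (L + 1)) := by
          gcongr
      _ = _ := by ring
  have hD : (s : ℝ) * m ≤ 270 * n ^ 2 * (L + 1) := by
    have h6 : (s : ℝ) ≤ 3 * τ := by rw [hsτr]; linarith
    calc (s : ℝ) * m ≤ 3 * τ * m := by gcongr
      _ = 3 * (τ * m) := by ring
      _ ≤ 3 * (90 * n ^ 2 * (L + 1)) := by gcongr
      _ = _ := by ring
  have hE : (n : ℝ) ^ (1 / 2 - 3 / 4 * δ) * m ≤
      (n : ℝ) ^ (1 / 2 - 3 / 4 * δ) * (n : ℝ) ^ (3 / 2 + δ) := by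
    calc (n : ℝ) ^ (1 / 2 - 3 / 4 * δ) * m ≤ s * m := by gcongr
      _ ≤ 270 * n ^ 2 * (L + 1) := hD
      _ = (n : ℝ) ^ (1 / 2 - 3 / 4 * δ) * (270 * (L + 1) * (n : ℝ) ^ (3 / 2 + 3 / 4 * δ)) := by
          have h6 : (n : ℝ) ^ 2 = (n : ℝ) ^ (1 / 2 - 3 / 4 * δ) * (n : ℝ) ^ (3 / 2 + 3 / 4 * δ) := by
            rw [← Real.rpow_add hn0, ← Real.rpow_natCast]
            congr 1
            push_cast
            ring
          rw [h6]; ring
      _ ≤ _ := by gcongr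
  exact le_of_mul_le_mul_left hE (Real.rpow_pos_of_pos hn0 _)

/-- the fraction of tuples with a small diameter -/
theorem card_bound2 {n k : ℕ} (δ : ℝ) (hδ0 : 0 < δ) (hδ1 : δ ≤ 1 / 3) (hk : 0 < k)
    (hn : 64 ≤ n)
    (hlast : 2 ^ 14 * (n : ℝ) ^ (1 / 2 - 3 / 4 * δ) ≤ (n : ℝ) ^ (1 / 2 - δ / 2) ∧
      270 * (Real.log n + 1) * (n : ℝ) ^ (3 / 2 + 3 / 4 * δ) ≤ (n : ℝ) ^ (3 / 2 + δ) ∧
      (20 : ℝ) ≤ (n : ℝ) ^ (1 / 2 - δ / 2) ∧ 4 * (n : ℝ) ^ (1 / 2 - δ / 2) ≤ n ∧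
      (3 : ℝ) ≤ (n : ℝ) ^ (1 / 2 - 3 / 4 * δ))
    (F : PW (Perm (Fin n)))
    (hβ : ∀ Z : Finset (Fin k → Alt n), (∀ z ∈ Z, Good F (tupW z) 20 (1 / 2)) →
      ∀ i, ¬ Triv (F.ρ i) (Alt n) →
        ∑ z ∈ Z, (trace ((lz (avgRe fun l => F.ρ i (z l : Perm (Fin n)))) ^ (2 * len n))).re ≤
          F.D i * ((Fintype.card (Alt n) : ℝ) ^ k * (3 / (n : ℝ) ^ 3)))
    (C : ℝ) (hC0 : 0 ≤ C)
    (hC : (Nat.card {z : Fin k → Alt n //
      ¬ Good F (tupW z) ⌊(n : ℝ) ^ (1 / 2 - δ / 2)⌋₊ (1 / 2)} : ℝ) ≤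
        (Fintype.card (Alt n) : ℝ) ^ k * (C / n)) :
    (Nat.card {x : Fin (k + 1) → Alt n // ¬ SmallDiam x ((n : ℝ) ^ (3 / 2 + δ))} : ℝ) ≤
      (Fintype.card (Alt n) : ℝ) ^ (k + 1) * ((C + 2) / n) := by
  classical
  have hlast' := hlast
  obtain ⟨h1, h2, h3, h4, h5⟩ := hlast
  have hn0 : (0 : ℝ) < n := by
    have : 0 < n := by omega
    exact_mod_cast this
  have hn1 : (1 : ℝ) ≤ n := by
    have : 1 ≤ n := by omega
    exact_mod_cast this
  have hN0 : (0 : ℝ) < Fintype.card (Alt n) := card_pos' (Alt n)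
  -- the prime
  set S := ⌈(n : ℝ) ^ (1 / 2 - 3 / 4 * δ)⌉₊ with hS
  have hS1 : (n : ℝ) ^ (1 / 2 - 3 / 4 * δ) ≤ S := Nat.le_ceil _
  have hS2 : (S : ℝ) ≤ 2 * (n : ℝ) ^ (1 / 2 - 3 / 4 * δ) := by
    have := Nat.ceil_lt_add_one (show (0 : ℝ) ≤ (n : ℝ) ^ (1 / 2 - 3 / 4 * δ) by positivity)
    linarith
  have hS3 : 2 ≤ S := by
    have : (3 : ℝ) ≤ S := h5.trans hS1
    have : 3 ≤ S := by exact_mod_cast this
    omega
  have hnS : n < S ^ 13 := by
    have h6 : (n : ℝ) ^ (13 / 12 : ℝ) ≤ (S : ℝ) ^ 13 := by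
      have h7 : (n : ℝ) ^ (1 / 12 : ℝ) ≤ S :=
        (Real.rpow_le_rpow_of_exponent_le hn1 (by linarith)).trans hS1
      calc (n : ℝ) ^ (13 / 12 : ℝ) = ((n : ℝ) ^ (1 / 12 : ℝ)) ^ 13 := by
            rw [← Real.rpow_natCast, ← Real.rpow_mul hn0.le]; norm_num
        _ ≤ (S : ℝ) ^ 13 := by gcongr
    have h7 : (n : ℝ) < (n : ℝ) ^ (13 / 12 : ℝ) := by
      conv_lhs => rw [← Real.rpow_one (n : ℝ)]
      apply Real.rpow_lt_rpow_of_exponent_lt
      · have : (64 : ℝ) ≤ n := by exact_mod_cast hn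
        linarith
      · norm_num
    have h8 : (n : ℝ) < (S : ℝ) ^ 13 := lt_of_lt_of_le h7 h6
    exact_mod_cast h8
  obtain ⟨s, hsp, hsS, hsS2, hdvd⟩ := Pool.Agent.Helper95.A.P2_prime 13 S (2 * (n / 2)) hS3
    (by omega) (by omega)
  have hs1 : (n : ℝ) ^ (1 / 2 - 3 / 4 * δ) ≤ s := hS1.trans (by exact_mod_cast hsS)
  have hs2 : (s : ℝ) ≤ (n : ℝ) ^ (1 / 2 - δ / 2) := by
    have h6 : (s : ℝ) ≤ 2 ^ 13 * S := by exact_mod_cast hsS2
    calc (s : ℝ) ≤ 2 ^ 13 * (2 * (n : ℝ) ^ (1 / 2 - 3 / 4 * δ)) := by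
          refine h6.trans ?_
          gcongr
      _ = 2 ^ 14 * (n : ℝ) ^ (1 / 2 - 3 / 4 * δ) := by ring
      _ ≤ _ := h1
  have hs4 : 4 * s ≤ n := by
    have : 4 * (s : ℝ) ≤ n := by linarith
    exact_mod_cast this
  have hs3 : 3 ≤ s := by
    have : (3 : ℝ) ≤ s := h5.trans hs1
    exact_mod_cast this
  set M := 2 * (n / 2) - s with hM
  have hMs : M + s = 2 * (n / 2) := by omega
  have hne : M ≠ s := by
    intro h
    apply hdvd
    rw [← hMs, h]
    exact ⟨2, by ring⟩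
  have hcard := cls_card (n := n) (M := M) (s := s) (by omega) (by omega) (by omega) hne
    (by omega) (by omega) (by rw [hMs]; exact ⟨n / 2, by ring⟩)
  set E := cls n M s with hE
  have hEpos : 0 < E.card := by
    by_contra hc
    have h6 : E.card = 0 := by omega
    rw [h6, zero_mul] at hcard
    have : 0 < Fintype.card (Alt n) := Fintype.card_pos
    omega
  -- the exceptional pairs
  set p := ⌊(n : ℝ) ^ (1 / 2 - δ / 2)⌋₊ with hp
  have hp20 : 20 ≤ p := Nat.le_floor (by exact_mod_cast h3)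
  set Z : Finset (Fin k → Alt n) := Finset.univ.filter fun z => Good F (tupW z) p (1 / 2) with hZ
  set B : Finset ((Fin k → Alt n) × Alt n) := Finset.univ.filter fun b => b.1 ∈ Z ∧
    ∀ l : List (Fin k × Bool), l.length ≤ len n → b.2 * evl b.1 l ∉ E with hB
  have hBcard : (B.card : ℝ) * E.card ≤ (Fintype.card (Alt n) : ℝ) ^ k * (3 / (n : ℝ) ^ 3) *
      (Fintype.card (Alt n) : ℝ) ^ 2 := by
    refine miss_count F hk Z (len n) _ (by positivity) (hβ Z fun z hz =>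
      ((Finset.mem_filter.1 hz).2).mono hp20) E (Finset.card_pos.1 hEpos) ?_ B (fun b hb =>
        (Finset.mem_filter.1 hb).2)
    intro σ g h hh hg
    rw [hE, mem_cls] at hg ⊢
    rw [hh, Perm.cycleType_conj]
    exact hg
  have hBcard2 : (B.card : ℝ) ≤ (Fintype.card (Alt n) : ℝ) ^ (k + 1) * (2 / n) := by
    have h6 : (E.card : ℝ) * (M * s) = 2 * Fintype.card (Alt n) := by exact_mod_cast hcard
    have hMs0 : (0 : ℝ) ≤ (M : ℝ) * s := by positivity
    have h7 : (B.card : ℝ) * (2 * Fintype.card (Alt n)) ≤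
        (Fintype.card (Alt n) : ℝ) ^ k * (3 / (n : ℝ) ^ 3) *
          (Fintype.card (Alt n) : ℝ) ^ 2 * (M * s) := by
      rw [← h6]
      calc (B.card : ℝ) * (E.card * (M * s)) = (B.card * E.card) * (M * s) := by ring
        _ ≤ _ := mul_le_mul_of_nonneg_right hBcard hMs0
    have h8 : (M : ℝ) * s ≤ n ^ 2 := by
      have h9 : (M : ℝ) ≤ n := by
        have : M ≤ n := by omega
        exact_mod_cast this
      have h10 : (s : ℝ) ≤ n := by
        have : s ≤ n := by omega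
        exact_mod_cast this
      calc (M : ℝ) * s ≤ n * n := by gcongr
        _ = n ^ 2 := by ring
    have h9 : (B.card : ℝ) * (2 * Fintype.card (Alt n)) ≤
        ((Fintype.card (Alt n) : ℝ) ^ (k + 1) * (2 / n)) * (2 * Fintype.card (Alt n)) := by
      refine h7.trans ?_
      calc (Fintype.card (Alt n) : ℝ) ^ k * (3 / (n : ℝ) ^ 3) *
          (Fintype.card (Alt n) : ℝ) ^ 2 * (M * s) ≤ (Fintype.card (Alt n) : ℝ) ^ k *
            (3 / (n : ℝ) ^ 3) * (Fintype.card (Alt n) : ℝ) ^ 2 * n ^ 2 := by gcongr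
        _ = (Fintype.card (Alt n) : ℝ) ^ (k + 2) * (3 / n) := by
            rw [pow_add]
            field_simp
        _ ≤ (Fintype.card (Alt n) : ℝ) ^ (k + 2) * (4 / n) := by gcongr; norm_num
        _ = _ := by ring
    exact le_of_mul_le_mul_right h9 (by positivity)
  -- the union bound
  set bad := {x : Fin (k + 1) → Alt n // ¬ SmallDiam x ((n : ℝ) ^ (3 / 2 + δ))} with hbad
  have hinj : Nat.card bad ≤
      Nat.card ({z : Fin k → Alt n // ¬ Good F (tupW z) p (1 / 2)} × Alt n ⊕ B) := by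
    have hcase : ∀ x : bad, Good F (tupW (Fin.tail x.1)) p (1 / 2) →
        ((Fin.tail x.1 : Fin k → Alt n), x.1 0) ∈ B := by
      intro x hx
      rw [hB, Finset.mem_filter]
      refine ⟨Finset.mem_univ _, Finset.mem_filter.2 ⟨Finset.mem_univ _, hx⟩, ?_⟩
      intro l hl hlE
      apply x.2
      have := smallDiam_of2 hδ0 hδ1 hk (by omega) hlast' hsp hs1 hs2 hdvd F (Fin.tail x.1) (x.1 0)
        hx l hl hlE
      rwa [Fin.cons_self_tail] at this
    refine Nat.card_le_card_of_injective (fun x : bad =>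
      if hx : Good F (tupW (Fin.tail x.1)) p (1 / 2) then
        Sum.inr ⟨((Fin.tail x.1 : Fin k → Alt n), x.1 0), hcase x hx⟩
      else Sum.inl (⟨Fin.tail x.1, hx⟩, x.1 0)) ?_
    intro x y hxy
    have key : (Fin.tail x.1 : Fin k → Alt n) = Fin.tail y.1 ∧ x.1 0 = y.1 0 := by
      by_cases hx : Good F (tupW (Fin.tail x.1)) p (1 / 2) <;>
      by_cases hy : Good F (tupW (Fin.tail y.1)) p (1 / 2)
      · simp only [dif_pos hx, dif_pos hy] at hxy
        have := congrArg Subtype.val (Sum.inr.inj hxy)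
        exact ⟨congrArg Prod.fst this, congrArg Prod.snd this⟩
      · simp only [dif_pos hx, dif_neg hy] at hxy
        cases hxy
      · simp only [dif_neg hx, dif_pos hy] at hxy
        cases hxy
      · simp only [dif_neg hx, dif_neg hy] at hxy
        have := Sum.inl.inj hxy
        exact ⟨congrArg Subtype.val (congrArg Prod.fst this), congrArg Prod.snd this⟩
    apply Subtype.ext
    rw [← Fin.cons_self_tail x.1, ← Fin.cons_self_tail y.1, key.1, key.2]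
  rw [Nat.card_sum, Nat.card_prod, Nat.card_eq_fintype_card (α := Alt n),
    Nat.card_eq_fintype_card (α := B), Fintype.card_coe] at hinj
  have hinj' : (Nat.card bad : ℝ) ≤
      (Nat.card {z : Fin k → Alt n // ¬ Good F (tupW z) p (1 / 2)} : ℝ) *
        Fintype.card (Alt n) + B.card := by exact_mod_cast hinj
  refine hinj'.trans ?_
  calc (Nat.card {z : Fin k → Alt n // ¬ Good F (tupW z) p (1 / 2)} : ℝ) *
        Fintype.card (Alt n) + B.card ≤
        ((Fintype.card (Alt n) : ℝ) ^ k * (C / n)) * Fintype.card (Alt n) +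
          (Fintype.card (Alt n) : ℝ) ^ (k + 1) * (2 / n) := by gcongr
    _ = _ := by rw [pow_succ]; ring

/-- the main theorem -/
theorem diam_main (δ : ℝ) (hδ : 0 < δ) : ∃ K : ℕ, ∀ k : ℕ, K ≤ k →
    Tendsto (fun n : ℕ => (Nat.card {x : Fin k → Alt n // SmallDiam x ((n : ℝ) ^ (3 / 2 + δ))} : ℝ) /
      Nat.card (Fin k → Alt n)) atTop (𝓝 1) := by
  set δ' := min δ (1 / 3) with hδ'
  have hδ'0 : 0 < δ' := lt_min hδ (by norm_num)
  have hδ'1 : δ' ≤ 1 / 3 := min_le_right _ _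
  obtain ⟨K, hK⟩ := main_good2 (1 / 2 - δ' / 2) (by linarith) (by linarith)
  refine ⟨max K 8 + 1, fun k' hk' => ?_⟩
  obtain ⟨k, rfl⟩ : ∃ k, k' = k + 1 := ⟨k' - 1, by omega⟩
  have hkK : K ≤ k := le_trans (le_max_left K 8) (by omega)
  have hk8 : 8 ≤ k := le_trans (le_max_right K 8) (by omega)
  obtain ⟨C, hC0, hC⟩ := hK k hkK
  have hlim : Tendsto (fun n : ℕ => 1 - (C + 2) / n) atTop (𝓝 1) := by
    have h5 : Tendsto (fun n : ℕ => (C + 2) / (n : ℝ)) atTop (𝓝 0) :=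
      tendsto_const_div_atTop_nhds_zero_nat _
    simpa using h5.const_sub 1
  refine tendsto_of_tendsto_of_tendsto_of_le_of_le' hlim tendsto_const_nhds ?_ ?_
  · filter_upwards [hC, beta_bound k hk8, ev_last2 δ' hδ'0 hδ'1, eventually_ge_atTop 64]
      with n h1 h2 h3 hn64
    obtain ⟨F⟩ := exists_pw (Equiv.Perm (Fin n))
    have hn1 : (1 : ℝ) ≤ n := by
      have : 1 ≤ n := by omega
      exact_mod_cast this
    have h4 := card_bound2 δ' hδ'0 hδ'1 (by omega) hn64 h3 F (h2 F) C hC0 (h1 F)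
    have hcards : (Nat.card (Fin (k + 1) → Alt n) : ℝ) = (Fintype.card (Alt n) : ℝ) ^ (k + 1) := by
      rw [Nat.card_eq_fintype_card, Fintype.card_fun, Fintype.card_fin]; push_cast; rfl
    have hN : (0 : ℝ) < (Fintype.card (Alt n) : ℝ) ^ (k + 1) := by
      have : (0 : ℝ) < Fintype.card (Alt n) := card_pos' (Alt n)
      positivity
    rw [hcards, le_div_iff₀ hN]
    classical
    have hsplit : (Nat.card (Fin (k + 1) → Alt n) : ℝ) ≤
        (Nat.card {x : Fin (k + 1) → Alt n // SmallDiam x ((n : ℝ) ^ (3 / 2 + δ))} : ℝ) +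
        Nat.card {x : Fin (k + 1) → Alt n // ¬ SmallDiam x ((n : ℝ) ^ (3 / 2 + δ'))} := by
      have h5 : Nat.card (Fin (k + 1) → Alt n) =
          Nat.card {x : Fin (k + 1) → Alt n // SmallDiam x ((n : ℝ) ^ (3 / 2 + δ'))} +
          Nat.card {x : Fin (k + 1) → Alt n // ¬ SmallDiam x ((n : ℝ) ^ (3 / 2 + δ'))} := by
        rw [Nat.card_eq_fintype_card, Nat.card_eq_fintype_card, Nat.card_eq_fintype_card,
          Fintype.card_subtype_compl]
        have := Fintype.card_subtype_le (fun x : Fin (k + 1) → Alt n =>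
          SmallDiam x ((n : ℝ) ^ (3 / 2 + δ')))
        omega
      have h6 : Nat.card {x : Fin (k + 1) → Alt n // SmallDiam x ((n : ℝ) ^ (3 / 2 + δ'))} ≤
          Nat.card {x : Fin (k + 1) → Alt n // SmallDiam x ((n : ℝ) ^ (3 / 2 + δ))} :=
        Nat.card_le_card_of_injective (fun x => ⟨x.1, x.2.mono
          (Real.rpow_le_rpow_of_exponent_le hn1 (by
            have := min_le_left δ (1 / 3)
            linarith))⟩) (by
          intro x y hxy
          have := congrArg Subtype.val hxy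
          exact Subtype.ext this)
      rw [h5]
      push_cast
      have h7 : (Nat.card {x : Fin (k + 1) → Alt n // SmallDiam x ((n : ℝ) ^ (3 / 2 + δ'))} : ℝ) ≤
          Nat.card {x : Fin (k + 1) → Alt n // SmallDiam x ((n : ℝ) ^ (3 / 2 + δ))} := by
        exact_mod_cast h6
      linarith
    rw [hcards] at hsplit
    nlinarith
  · filter_upwards [eventually_ge_atTop 1] with n hn
    have hcards : (0 : ℝ) < Nat.card (Fin (k + 1) → Alt n) := by
      have : 0 < Nat.card (Fin (k + 1) → Alt n) := Nat.card_pos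
      exact_mod_cast this
    rw [div_le_one hcards]
    have := Nat.card_le_card_of_injective
      (fun x : {x : Fin (k + 1) → Alt n // SmallDiam x ((n : ℝ) ^ (3 / 2 + δ))} => x.1)
      Subtype.val_injective
    exact_mod_cast this

end Pool.Agent.Helper6.H
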