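import Pool.Agent.Helper90.W2

/-! Definitions for the improved large deviation bound for fixed points of word maps. -/

namespace Pool.Agent.Helper6.H

open Finset Equiv Pool.Agent.Helper90.W2

variable {n k : ℕ}

/-- inverse letter -/
def flip (s : Fin k × Bool) : Fin k × Bool := (s.1, !s.2)

/-- the edge used at step `t` by the trajectory of `p`: the pair `(i, u)` stands for the edge
from `u` to `x i u` -/
def edge (r : ℕ → Fin k × Bool) (x : Fin k → Perm (Fin n)) (p : Fin n) (t : ℕ) :
    Fin k × Fin n := ((r t).1, cond (r t).2 (traj r x p t) (traj r x p (t + 1)))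

/-- starting positions of the windows of length `g` which differ from all earlier windows and
from their inverses -/
def firstPos (r : ℕ → Fin k × Bool) (g L : ℕ) : Finset ℕ :=
  (range (L + 1 - g)).filter fun t => ∀ t' < t,
    ¬ (∀ i < g, r (t' + i) = r (t + i)) ∧ ¬ (∀ i < g, r (t' + i) = flip (r (t + g - 1 - i)))

/-- the trajectory of `p` is closed and has an edge, not used by the trajectories of the `ps`,
which either lands at a point visited before when it is used for the first time, or is used
only once -/
def Ext (r : ℕ → Fin k × Bool) (L : ℕ) {j : ℕ} (x : Fin k → Perm (Fin n)) (ps : Fin j → Fin n)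
    (p : Fin n) : Prop :=
  traj r x p L = p ∧ ∃ t₀ < L, (∀ i, ∀ t < L, edge r x (ps i) t ≠ edge r x p t₀) ∧
    (((∀ t < t₀, edge r x p t ≠ edge r x p t₀) ∧ ∃ t ≤ t₀, traj r x p t = traj r x p (t₀ + 1)) ∨
      ∀ t < L, t ≠ t₀ → edge r x p t ≠ edge r x p t₀)

end Pool.Agent.Helper6.H
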