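import Pool.Agent.Helper6.H.Defs
import Pool.Agent.Helper90.W1
import Pool.Agent.Helper3.H.LZ
import Pool.Agent.Helper88.H.CountExt
import Pool.Agent.Helper68.H.Structure
import Pool.Agent.Helper32.H.ExtMany

/-! The four combinatorial ingredients (packets by helper3, helper88, helper68 and helper32). -/

namespace Pool.Agent.Helper6.H

open Finset Equiv Pool.Agent.Helper90.W2

variable {n k : ℕ}

/-- Words with few distinct factors up to reversal are rare (Lempel-Ziv count). -/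
theorem lz_count (L g A : ℕ) (hk : 0 < k) (hg : 0 < g) (d : Fin k × Bool) :
    (Nat.card {v : Fin L → Fin k × Bool //
      (∀ t (h : t + 1 < L), v ⟨t + 1, h⟩ ≠ flip (v ⟨t, by omega⟩)) ∧
      (firstPos (fun t => if h : t < L then v ⟨t, h⟩ else d) g L).card ≤ A} : ℝ) ≤
      4 ^ L * (2 * k) ^ (A + g) * (2 * L + 2) ^ (L / g + 1) :=
  Pool.Agent.Helper3.H.lz_count L g A hk hg d

/-- Switching with extendable points. -/
theorem count_ext (r : ℕ → Fin k × Bool) (L m f F : ℕ) (hL : 0 < L) (hLm : L ≤ m)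
    (hV : 2 * (f * (m + 1)) ≤ n) (hF0 : 0 < F)
    (hr : ∀ t, t + 1 < L → r (t + 1) ≠ flip (r t))
    (hext : ∀ (x : Fin k → Perm (Fin n)),
      F ≤ (univ.filter fun i : Fin n => traj r x i L = i).card → ∀ j < f,
      ∀ ps : Fin j → Fin n, ∃ S : Finset (Fin n), F ≤ 2 * S.card ∧ ∀ p ∈ S, Ext r L x ps p) :
    (Nat.card {x : Fin k → Perm (Fin n) //
      F ≤ (univ.filter fun i : Fin n => traj r x i L = i).card} : ℝ) ≤
      (n.factorial : ℝ) ^ k * (4 * m * (m + 1) / F) ^ f :=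
  Pool.Agent.Helper88.H.count_ext r L m f F hL hLm hV hF0 hr hext

/-- The forest structure of a trajectory without extendable edges. -/
theorem structure_lemma (r : ℕ → Fin k × Bool) (x : Fin k → Perm (Fin n)) (p : Fin n) (L g : ℕ)
    (U : Finset (Fin n)) (OE : Set (Fin k × Fin n))
    (hr : ∀ t, t + 1 < L → r (t + 1) ≠ flip (r t))
    (hOE : ∀ t < L, edge r x p t ∈ OE → traj r x p t ∈ U ∧ traj r x p (t + 1) ∈ U)
    (ha : ∀ t₀ < L, edge r x p t₀ ∉ OE → (∀ t < t₀, edge r x p t ≠ edge r x p t₀) →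
      ∀ t ≤ t₀, traj r x p t ≠ traj r x p (t₀ + 1))
    (hb : ∀ t₀ < L, edge r x p t₀ ∉ OE → ∃ t < L, t ≠ t₀ ∧ edge r x p t = edge r x p t₀) :
    2 * (firstPos r g L).card ≤ L + 2 + 2 * g +
      2 * (2 * g + 1) * ((range (L + 1)).filter fun t => traj r x p t ∈ U).card :=
  Pool.Agent.Helper68.H.structure_lemma r x p L g U OE hr hOE ha hb

/-- Most fixed points are extendable. -/
theorem ext_many (r : ℕ → Fin k × Bool) (L m f F g : ℕ) (hL : 0 < L) (hLm : L ≤ m) (hg : 1 ≤ g)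
    (hr : ∀ t, t + 1 < L → r (t + 1) ≠ flip (r t))
    (hgen : L + 2 + 2 * g + 2 * (2 * g + 1) * (L / (60 * g)) < 2 * (firstPos r g L).card)
    (hF : 240 * (f * (g * (m + 1))) ≤ F) (x : Fin k → Perm (Fin n))
    (hx : F ≤ (univ.filter fun i : Fin n => traj r x i L = i).card) (j : ℕ) (hj : j < f)
    (ps : Fin j → Fin n) : ∃ S : Finset (Fin n), F ≤ 2 * S.card ∧ ∀ p ∈ S, Ext r L x ps p :=
  Pool.Agent.Helper32.H.ext_many_of (fun r x p L g U OE hr hOE ha hb =>
    structure_lemma r x p L g U OE hr hOE ha hb) r L m f g F hL hLm hg hr hgen hF x hx j hj ps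

end Pool.Agent.Helper6.H
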