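import Pool.Agent.Helper6.H.Words
import Pool.Agent.Helper6.FixK.Word

/-! Moments of the averaging operator, improved form. -/

set_option linter.unusedSectionVars false

namespace Pool.Agent.Helper6.H

open Matrix Equiv Pool.Agent.Helper15.An Pool.Agent.Helper6.FixK
open scoped ComplexOrder

variable {n D : ℕ}

/-- contribution of one generic word -/
theorem sum_word_le2 {k : ℕ} (hn : 2 ≤ n) {ρ : Perm (Fin n) →* Matrix (Fin D) (Fin D) ℂ}
    (hu : ∀ g, (ρ g)ᴴ * ρ g = 1) (d : Fin k × Bool) (γ : FreeGroup (Fin k)) (m f F g : ℕ)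
    (hg : 1 ≤ g) (hγ : Gen d g γ)
    (hm : γ.toWord.length ≤ m) (hV : 2 * (f * (m + 1)) ≤ n) (hF : 240 * (f * (g * (m + 1))) ≤ F)
    (hF0 : 0 < F) (ψ : ℝ) (hψ0 : 0 ≤ ψ)
    (hψ : ∀ g : Perm (Fin n), fixc g < F → ‖trace (ρ g)‖ ≤ D * ψ) :
    ∑ x : Fin k → Alt n, ‖trace (ρ (FreeGroup.lift (fun l => (x l : Perm (Fin n))) γ))‖ ≤
      D * (Fintype.card (Alt n) : ℝ) ^ k *
        (2 ^ k * (4 * m * (m + 1) / F) ^ f + ψ) := by
  classical
  have h1 := fixed_bound (n := n) d γ m f F g hg hγ hm hV hF hF0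
  set c : ℝ := (Nat.card {x : Fin k → Perm (Fin n) //
      F ≤ (Finset.univ.filter fun i : Fin n => FreeGroup.lift x γ i = i).card} : ℝ) with hc
  set S := Finset.univ.filter (fun x : Fin k → Alt n =>
    F ≤ fixc (FreeGroup.lift (fun l => (x l : Perm (Fin n))) γ)) with hS
  have hScard : (S.card : ℝ) ≤ c := by
    have h2 : S.card ≤ Nat.card {x : Fin k → Perm (Fin n) //
        F ≤ (Finset.univ.filter fun i : Fin n => FreeGroup.lift x γ i = i).card} := by
      rw [← Nat.card_eq_finsetCard S]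
      have hmem : ∀ x : S, F ≤ (Finset.univ.filter fun i : Fin n =>
          FreeGroup.lift (fun l => ((x : Fin k → Alt n) l : Perm (Fin n))) γ i = i).card :=
        fun x => (Finset.mem_filter.1 x.2).2
      refine Nat.card_le_card_of_injective
        (fun x : S => (⟨fun l => ((x : Fin k → Alt n) l : Perm (Fin n)), hmem x⟩ :
          {x : Fin k → Perm (Fin n) //
            F ≤ (Finset.univ.filter fun i : Fin n => FreeGroup.lift x γ i = i).card})) ?_
      intro x y hxy
      have hxy' := congrArg Subtype.val hxy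
      refine Subtype.ext (funext fun l => Subtype.ext ?_)
      exact congrFun hxy' l
    rw [hc]
    exact_mod_cast h2
  have hfac : (n.factorial : ℝ) ^ k = 2 ^ k * (Fintype.card (Alt n) : ℝ) ^ k := by
    have h3 := card_Alt hn
    rw [Fintype.card_perm, Fintype.card_fin] at h3
    rw [h3]
    push_cast
    rw [mul_pow]
  rw [← Finset.sum_filter_add_sum_filter_not Finset.univ (fun x : Fin k → Alt n =>
    F ≤ fixc (FreeGroup.lift (fun l => (x l : Perm (Fin n))) γ)), ← hS]
  have hD : (0 : ℝ) ≤ D := Nat.cast_nonneg _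
  have hA : ∑ x ∈ S, ‖trace (ρ (FreeGroup.lift (fun l => (x l : Perm (Fin n))) γ))‖ ≤
      D * (Fintype.card (Alt n) : ℝ) ^ k * (2 ^ k * (4 * m * (m + 1) / F) ^ f) := by
    refine (Finset.sum_le_sum fun x _ => norm_trace_le hu _).trans ?_
    rw [Finset.sum_const, nsmul_eq_mul]
    calc (S.card : ℝ) * D ≤ c * D := by gcongr
      _ ≤ ((n.factorial : ℝ) ^ k * (4 * m * (m + 1) / F) ^ f) * D := by gcongr
      _ = _ := by rw [hfac]; ring
  have hB : ∑ x ∈ Finset.univ.filter (fun x : Fin k → Alt n =>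
      ¬ F ≤ fixc (FreeGroup.lift (fun l => (x l : Perm (Fin n))) γ)),
      ‖trace (ρ (FreeGroup.lift (fun l => (x l : Perm (Fin n))) γ))‖ ≤
      D * (Fintype.card (Alt n) : ℝ) ^ k * ψ := by
    refine (Finset.sum_le_sum fun x hx => hψ _ (not_le.1 (Finset.mem_filter.1 hx).2)).trans ?_
    rw [Finset.sum_const, nsmul_eq_mul]
    have h4 : ((Finset.univ.filter (fun x : Fin k → Alt n =>
      ¬ F ≤ fixc (FreeGroup.lift (fun l => (x l : Perm (Fin n))) γ))).card : ℝ) ≤
        (Fintype.card (Alt n) : ℝ) ^ k := by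
      have h5 := Finset.card_filter_le (Finset.univ : Finset (Fin k → Alt n)) (fun x =>
        ¬ F ≤ fixc (FreeGroup.lift (fun l => (x l : Perm (Fin n))) γ))
      rw [Finset.card_univ, Fintype.card_fun, Fintype.card_fin] at h5
      exact_mod_cast h5
    calc _ ≤ (Fintype.card (Alt n) : ℝ) ^ k * (D * ψ) := by gcongr
      _ = _ := by ring
  rw [mul_add]
  exact add_le_add hA hB

/-- moment bound for the averaging operator of `k` random even permutations -/
theorem moment_le2 {k : ℕ} (hn : 2 ≤ n) (hk : 2 ≤ k)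
    {ρ : Perm (Fin n) →* Matrix (Fin D) (Fin D) ℂ}
    (hu : ∀ g, (ρ g)ᴴ * ρ g = 1) (m f F g : ℕ) (hg : 1 ≤ g) (hgm : 2 * m + 2 ≤ 2 ^ g)
    (b : ℝ) (hb : 0 ≤ b) (hkb : (32 * Real.exp b) ^ 10 ≤ Real.sqrt (2 * k) ^ 9)
    (hV : 2 * (f * (m + 1)) ≤ n) (hF : 240 * (f * (g * (m + 1))) ≤ F)
    (hF0 : 0 < F) (ψ : ℝ) (hψ0 : 0 ≤ ψ)
    (hψ : ∀ g : Perm (Fin n), fixc g < F → ‖trace (ρ g)‖ ≤ D * ψ) :
    ∑ x : Fin k → Alt n, (trace ((avgRe fun l => ρ (x l : Perm (Fin n))) ^ m)).re ≤
      D * (Fintype.card (Alt n) : ℝ) ^ k *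
        (Real.exp (-(b * m)) * Real.sqrt (2 * k) ^ (2 + 5 * g) +
          2 ^ k * (4 * m * (m + 1) / F) ^ f + ψ) := by
  classical
  have hk' : 0 < k := by omega
  have hk0 : (0 : ℝ) < k := by exact_mod_cast hk'
  set N := (Fintype.card (Alt n) : ℝ) ^ k with hN
  have hN0 : 0 ≤ N := by positivity
  have hD : (0 : ℝ) ≤ D := Nat.cast_nonneg _
  set d : Fin k × Bool := (⟨0, hk'⟩, true) with hd
  set c : ℝ := 2 ^ k * (4 * m * (m + 1) / F) ^ f + ψ with hc
  have hc0 : 0 ≤ c := by positivity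
  have h1 : ∀ x : Fin k → Alt n, (trace ((avgRe fun l => ρ (x l : Perm (Fin n))) ^ m)).re ≤
      ((2 * (k : ℝ))⁻¹) ^ m * ∑ w : Fin m → Fin k × Bool,
        ‖trace (ρ (ev (fun l => (x l : Perm (Fin n))) w))‖ := by
    intro x
    rw [avgRe_pow hu (fun l => (x l : Perm (Fin n))), trace_smul, Complex.real_smul,
      Complex.re_ofReal_mul]
    refine mul_le_mul_of_nonneg_left ?_ (by positivity)
    rw [Matrix.trace_sum]
    exact (Complex.re_le_norm _).trans (norm_sum_le _ _)
  refine (Finset.sum_le_sum fun x _ => h1 x).trans ?_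
  rw [← Finset.mul_sum, Finset.sum_comm]
  -- words
  have h2 : ∀ w : Fin m → Fin k × Bool, ∑ x : Fin k → Alt n,
      ‖trace (ρ (ev (fun l => (x l : Perm (Fin n))) w))‖ ≤
      (if ¬ Gen d g (FreeGroup.mk (List.ofFn w)) then D * N else 0) + D * N * c := by
    intro w
    by_cases hw : Gen d g (FreeGroup.mk (List.ofFn w))
    · rw [if_neg (not_not.2 hw), zero_add]
      refine sum_word_le2 hn hu d _ m f F g hg hw ?_ hV hF hF0 ψ hψ0 hψ
      have h5 : (FreeGroup.mk (List.ofFn w)).toWord.length ≤ (List.ofFn w).length := by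
        rw [FreeGroup.toWord_mk]
        exact FreeGroup.Red.length_le FreeGroup.reduce.red
      rwa [List.length_ofFn] at h5
    · rw [if_pos hw]
      have h3 : ∑ x : Fin k → Alt n, ‖trace (ρ (ev (fun l => (x l : Perm (Fin n))) w))‖ ≤
          D * N := by
        refine (Finset.sum_le_sum fun x _ => norm_trace_le hu _).trans ?_
        rw [Finset.sum_const, Finset.card_univ, Fintype.card_fun, Fintype.card_fin, nsmul_eq_mul,
          hN]
        push_cast
        rw [mul_comm]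
      have h4 : 0 ≤ D * N * c := by positivity
      linarith
  refine (mul_le_mul_of_nonneg_left (Finset.sum_le_sum fun w _ => h2 w)
    (by positivity)).trans ?_
  rw [Finset.sum_add_distrib, Finset.sum_const, Finset.card_univ, ← Finset.sum_filter,
    Finset.sum_const, nsmul_eq_mul, nsmul_eq_mul]
  have h3 := bad_frac d m g hk (by omega) hgm b hb hkb
  have h4 : (Fintype.card (Fin m → Fin k × Bool) : ℝ) = (2 * k) ^ m := by
    rw [Fintype.card_fun, Fintype.card_fin, Fintype.card_prod, Fintype.card_fin,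
      Fintype.card_bool]
    push_cast
    rw [mul_comm]
  have h5 : ((Finset.univ.filter fun w : Fin m → Fin k × Bool =>
      ¬ Gen d g (FreeGroup.mk (List.ofFn w))).card : ℝ) =
      (Nat.card {w : Fin m → Fin k × Bool // ¬ Gen d g (FreeGroup.mk (List.ofFn w))} : ℝ) := by
    rw [Nat.card_eq_fintype_card, Fintype.card_subtype]
  rw [h4, h5]
  have h2k : (2 * (k : ℝ)) ≠ 0 := by positivity
  have e1 : ((2 * (k : ℝ))⁻¹) ^ m * (2 * (k : ℝ)) ^ m = 1 := by
    rw [← mul_pow, inv_mul_cancel₀ h2k, one_pow]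
  set q : ℝ := (Nat.card {w : Fin m → Fin k × Bool //
    ¬ Gen d g (FreeGroup.mk (List.ofFn w))} : ℝ) with hq
  calc ((2 * (k : ℝ))⁻¹) ^ m * (q * (D * N) + (2 * (k : ℝ)) ^ m * (D * N * c))
      = (((2 * (k : ℝ))⁻¹) ^ m * q) * (D * N) +
          (((2 * (k : ℝ))⁻¹) ^ m * (2 * (k : ℝ)) ^ m) * (D * N * c) := by ring
    _ ≤ (Real.exp (-(b * m)) * Real.sqrt (2 * k) ^ (2 + 5 * g)) * (D * N) + D * N * c := by
        rw [e1, one_mul]
        have h6 : 0 ≤ D * N := by positivity
        have := mul_le_mul_of_nonneg_right h3 h6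
        linarith
    _ = _ := by rw [hc]; ring

end Pool.Agent.Helper6.H
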