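import Pool.Agent.Helper6.H.Moment
import Pool.Agent.Helper6.FixK.Block

/-! Choice of the parameters. -/

set_option linter.unusedSectionVars false

namespace Pool.Agent.Helper6.H

open Matrix Equiv Pool.Agent.Helper15.An Pool.Agent.Helper6.FixK
open scoped ComplexOrder

/-- relations between the constants -/
structure Par2 (α κ a c c' : ℝ) (k : ℕ) : Prop where
  hα : 0 ≤ α
  hκ : 0 < κ
  hκα : 4 * κ = 1 - 2 * α
  ha : 0 < a
  hc : 0 < c
  hca : 8 * (c * a) = κ
  hc' : 0 < c'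
  hc'c : c' ≤ c
  hc'κ : 8 * c' ≤ κ
  hk : (32 * Real.exp (a + 2)) ^ 10 ≤ Real.sqrt (2 * k) ^ 9
  hk2 : 2 ≤ k

/-- size conditions on `n`; here `L = log n` -/
structure BigN2 (κ a c : ℝ) (k : ℕ) (L : ℝ) : Prop where
  hL : 1 ≤ L
  h1 : 1 ≤ c * L
  h2 : 2 * (Real.exp (2 * a) * (2 ^ k + 1)) ≤ Real.exp (κ * L / 8)
  h3 : 4 * (2 * c + 3) ^ 2 * L ^ 2 ≤ Real.exp (2 * κ * L)
  h4 : 18 ≤ Real.exp (κ * L / 2)
  h5 : 720 * (2 * c + 3) * L ^ 2 ≤ Real.exp (κ * L)
  h6 : 4 ≤ Real.exp (κ * L)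
  h7 : ∀ m : ℕ, 2 * c * L ≤ m →
    Real.sqrt (2 * k) ^ (2 + 5 * Nat.clog 2 (2 * m + 2)) ≤ Real.exp m
  h8 : (2 * c + 3) * L ≤ Real.exp (κ * L)

theorem exp_sum_bound2 {α κ a c c' : ℝ} {k : ℕ} (P : Par2 α κ a c c' k) {L : ℝ}
    (hb : BigN2 κ a c k L) {r : ℝ} (hr : 1 ≤ r) :
    Real.exp (-(2 * c * r * L)) + Real.exp (κ * r * L / 4 + 2 * a) *
      (2 ^ k * Real.exp (-(κ * r * L)) + Real.exp (-(κ * r * L / 2))) ≤
      Real.exp (-(c' * r * L)) := by
  have hL0 : 0 < L := lt_of_lt_of_le one_pos hb.hL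
  have hrL : L ≤ r * L := by nlinarith
  have hκ := P.hκ
  have e1 : Real.exp (-(2 * c * r * L)) ≤ (1 / 2) * Real.exp (-(c' * r * L)) := by
    have h1 : Real.exp (-(2 * c * r * L)) ≤ Real.exp (-1) * Real.exp (-(c' * r * L)) := by
      rw [← Real.exp_add]
      apply Real.exp_le_exp.2
      have h2 : 1 ≤ c * (r * L) := hb.h1.trans (mul_le_mul_of_nonneg_left hrL P.hc.le)
      have h3 : c' * (r * L) ≤ c * (r * L) :=
        mul_le_mul_of_nonneg_right P.hc'c (by linarith)
      nlinarith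
    have h4 : Real.exp (-1) ≤ 1 / 2 := by
      rw [Real.exp_neg, one_div]
      apply inv_anti₀ (by norm_num)
      have := Real.exp_one_gt_d9
      linarith
    refine h1.trans (mul_le_mul_of_nonneg_right h4 (Real.exp_pos _).le)
  have e2 : Real.exp (κ * r * L / 4 + 2 * a) *
      (2 ^ k * Real.exp (-(κ * r * L)) + Real.exp (-(κ * r * L / 2))) ≤
      (1 / 2) * Real.exp (-(c' * r * L)) := by
    have h1 : Real.exp (-(κ * r * L)) ≤ Real.exp (-(κ * r * L / 2)) := by
      apply Real.exp_le_exp.2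
      have : 0 ≤ κ * r * L := by positivity
      linarith
    calc Real.exp (κ * r * L / 4 + 2 * a) *
        (2 ^ k * Real.exp (-(κ * r * L)) + Real.exp (-(κ * r * L / 2)))
        ≤ Real.exp (κ * r * L / 4 + 2 * a) *
          (2 ^ k * Real.exp (-(κ * r * L / 2)) + Real.exp (-(κ * r * L / 2))) := by gcongr
      _ = (Real.exp (2 * a) * (2 ^ k + 1)) *
          (Real.exp (κ * r * L / 4) * Real.exp (-(κ * r * L / 2))) := by
          rw [Real.exp_add]; ring
      _ = (Real.exp (2 * a) * (2 ^ k + 1)) *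
          (Real.exp (-(κ * r * L / 8)) * Real.exp (-(κ * r * L / 8))) := by
          congr 1
          rw [← Real.exp_add, ← Real.exp_add]
          congr 1
          ring
      _ ≤ (Real.exp (κ * L / 8) / 2) *
          (Real.exp (-(κ * r * L / 8)) * Real.exp (-(κ * r * L / 8))) := by
          have := hb.h2
          gcongr
          linarith
      _ = (1 / 2) * (Real.exp (κ * L / 8) * Real.exp (-(κ * r * L / 8)) *
          Real.exp (-(κ * r * L / 8))) := by ring
      _ ≤ (1 / 2) * (1 * Real.exp (-(κ * r * L / 8))) := by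
          gcongr
          rw [← Real.exp_add, Real.exp_le_one_iff]
          nlinarith [mul_le_mul_of_nonneg_left hrL hκ.le]
      _ ≤ (1 / 2) * Real.exp (-(c' * r * L)) := by
          rw [one_mul]
          gcongr
          have := mul_le_mul_of_nonneg_right P.hc'κ (show 0 ≤ r * L by linarith)
          nlinarith
  linarith

/-- the moment bound with all parameters chosen -/
theorem level_moment2 {α κ a c c' : ℝ} {k : ℕ} (P : Par2 α κ a c c' k) {n : ℕ} (hn : 2 ≤ n)
    (hb : BigN2 κ a c k (Real.log n)) {r : ℕ} (hr : 0 < r)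
    (hrα : (r : ℝ) ≤ Real.exp (α * Real.log n)) {D : ℕ}
    {ρ : Perm (Fin n) →* Matrix (Fin D) (Fin D) ℂ} (hρ : IsIrr ρ)
    (hf : HasFix ρ (stab n r)) (hnf : ¬ HasFix ρ (stab n (r - 1))) :
    ∃ (t : ℕ) (M : ℝ), 0 ≤ M ∧
      ∑ x : Fin k → Alt n, (trace ((avgRe fun l => ρ (x l : Perm (Fin n))) ^ (2 * t))).re ≤
        D * (Fintype.card (Alt n) : ℝ) ^ k * M ∧
      Real.exp a ^ (2 * t) * M ≤ Real.exp (-(c' * r * Real.log n)) := by
  set L := Real.log n with hL
  have hn0 : (0 : ℝ) < n := by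
    have : 0 < n := by omega
    exact_mod_cast this
  have hnL : (n : ℝ) = Real.exp L := (Real.exp_log hn0).symm
  have hL1 := hb.hL
  have hL0 : 0 < L := lt_of_lt_of_le one_pos hL1
  have hr1 : (1 : ℝ) ≤ r := by exact_mod_cast hr
  have hr0 : (0 : ℝ) < r := by linarith
  have hκ := P.hκ
  have hc := P.hc
  have ha := P.ha
  have hα1 : 4 * κ ≤ 1 := by linarith [P.hκα, P.hα]
  set t := ⌈c * r * L⌉₊ with ht
  have ht1 : c * r * L ≤ t := Nat.le_ceil _
  have ht2 : (t : ℝ) ≤ c * r * L + 1 := (Nat.ceil_lt_add_one (by positivity)).le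
  set F := ⌈Real.exp ((1 - κ) * L)⌉₊ with hFdef
  have hF1 : Real.exp ((1 - κ) * L) ≤ F := Nat.le_ceil _
  have hF2 : (F : ℝ) ≤ 2 * Real.exp ((1 - κ) * L) := by
    have h1 : (F : ℝ) ≤ Real.exp ((1 - κ) * L) + 1 := (Nat.ceil_lt_add_one (Real.exp_pos _).le).le
    have h2 : 1 ≤ Real.exp ((1 - κ) * L) := by
      apply Real.one_le_exp
      have : 0 ≤ 1 - κ := by linarith
      positivity
    linarith
  have hFpos : (0 : ℝ) < F := lt_of_lt_of_le (Real.exp_pos _) hF1
  have hF0 : 0 < F := by exact_mod_cast hFpos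
  have hrL1 : 1 ≤ r * L := by nlinarith
  -- the word length
  set m := 2 * t with hm
  have hm1 : (m : ℝ) ≤ (2 * c + 2) * (r * L) := by
    rw [hm]; push_cast
    nlinarith
  have hm2 : (m : ℝ) + 1 ≤ (2 * c + 3) * (r * L) := by nlinarith
  have hm0 : (0 : ℝ) ≤ m := Nat.cast_nonneg _
  have hr2 : (r : ℝ) ^ 2 ≤ Real.exp (2 * (α * L)) := by
    rw [two_mul, Real.exp_add, sq]
    exact mul_le_mul hrα hrα hr0.le (Real.exp_pos _).le
  have hmn : (m : ℝ) + 1 ≤ Real.exp ((κ + α) * L) := by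
    calc (m : ℝ) + 1 ≤ (2 * c + 3) * (r * L) := hm2
      _ = ((2 * c + 3) * L) * r := by ring
      _ ≤ Real.exp (κ * L) * Real.exp (α * L) := by
          have := hb.h8
          gcongr
      _ = Real.exp ((κ + α) * L) := by rw [← Real.exp_add]; congr 1; ring
  set g := Nat.clog 2 (2 * m + 2) with hgdef
  have hg1 : 1 ≤ g := by
    have h1 := Nat.clog_pos (b := 2) (n := 2 * m + 2) (by norm_num) (by omega)
    omega
  have hgm : 2 * m + 2 ≤ 2 ^ g := Nat.le_pow_clog (by norm_num) _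
  have hg2 : (2 : ℝ) ^ g ≤ 4 * (m + 1) := by
    have h1 : 2 ^ (g - 1) < 2 * m + 2 := by
      exact Nat.pow_pred_clog_lt_self (b := 2) (x := 2 * m + 2) (by norm_num) (by omega)
    have h2 : 2 ^ g = 2 * 2 ^ (g - 1) := by
      rw [← pow_succ', Nat.sub_add_cancel hg1]
    have h3 : 2 ^ g ≤ 4 * (m + 1) := by omega
    exact_mod_cast h3
  have hg3 : (g : ℝ) ≤ 3 * L := by
    have h1 : Real.exp (g * Real.log 2) ≤ Real.exp (2 * L) := by
      rw [Real.exp_nat_mul, Real.exp_log (by norm_num)]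
      calc (2 : ℝ) ^ g ≤ 4 * (m + 1) := hg2
        _ ≤ Real.exp (κ * L) * Real.exp ((κ + α) * L) := by
            have := hb.h6
            gcongr
        _ = Real.exp ((2 * κ + α) * L) := by rw [← Real.exp_add]; congr 1; ring
        _ ≤ Real.exp (2 * L) := by
            apply Real.exp_le_exp.2
            have h1 : 2 * κ + α ≤ 2 := by linarith [P.hκα, P.hα]
            exact mul_le_mul_of_nonneg_right h1 hL0.le
    have h2 := Real.exp_le_exp.1 h1
    have h3 := Real.log_two_gt_d9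
    have h4 : (g : ℝ) * (2 / 3) ≤ g * Real.log 2 :=
      mul_le_mul_of_nonneg_left (by linarith) (Nat.cast_nonneg _)
    linarith
  have hV : (240 * (r * (g * (m + 1))) : ℝ) ≤ F := by
    calc (240 * (r * (g * (m + 1))) : ℝ) ≤ 240 * (r * ((3 * L) * ((2 * c + 3) * (r * L)))) := by
          gcongr
      _ = (720 * (2 * c + 3) * L ^ 2) * (r : ℝ) ^ 2 := by ring
      _ ≤ Real.exp (κ * L) * Real.exp (2 * (α * L)) := by
          have := hb.h5
          gcongr
      _ = Real.exp (κ * L + 2 * (α * L)) := by rw [← Real.exp_add]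
      _ ≤ Real.exp ((1 - κ) * L) := by
          apply Real.exp_le_exp.2
          have h1 : κ + 2 * α ≤ 1 - κ := by linarith [P.hκα, P.hα]
          have := mul_le_mul_of_nonneg_right h1 hL0.le
          linarith
      _ ≤ F := hF1
  have hV' : 240 * (r * (g * (m + 1))) ≤ F := by exact_mod_cast hV
  have hFn : (F : ℝ) ≤ n := by
    rw [hnL]
    refine hF2.trans ?_
    calc 2 * Real.exp ((1 - κ) * L) ≤ Real.exp (κ * L) * Real.exp ((1 - κ) * L) := by
          have := hb.h6
          gcongr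
          linarith
      _ = Real.exp L := by rw [← Real.exp_add]; congr 1; ring
  have hVn : 2 * (r * (m + 1)) ≤ n := by
    have h1 : F ≤ n := by exact_mod_cast hFn
    have h2 : r * (m + 1) ≤ r * (g * (m + 1)) :=
      Nat.mul_le_mul_left _ (Nat.le_mul_of_pos_left _ hg1)
    omega
  -- the character bound
  have hαL : Real.exp (α * L) * 4 ≤ n := by
    rw [hnL]
    calc Real.exp (α * L) * 4 ≤ Real.exp (α * L) * Real.exp (κ * L) := by
          have := hb.h6
          gcongr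
      _ = Real.exp (α * L + κ * L) := by rw [← Real.exp_add]
      _ ≤ Real.exp L := by
          apply Real.exp_le_exp.2
          have h1 : α + κ ≤ 1 := by linarith [P.hκα, P.hα]
          have := mul_le_mul_of_nonneg_right h1 hL0.le
          linarith
  have h4r : 4 * r ≤ n := by
    have h1 : 4 * (r : ℝ) ≤ n := by linarith
    exact_mod_cast h1
  set ψ : ℝ := Real.exp (-(κ * r * L / 2)) with hψ
  have hψ0 : 0 ≤ ψ := (Real.exp_pos _).le
  have hchar : ∀ g : Perm (Fin n), fixc g < F → ‖trace (ρ g)‖ ≤ D * ψ := by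
    intro g hg
    refine (char_bound_level hr h4r hρ hf hnf g).trans ?_
    refine mul_le_mul_of_nonneg_left ?_ (Nat.cast_nonneg _)
    have h1 : 2 * (fixc g : ℝ) / n ≤ 4 * Real.exp (-(κ * L)) := by
      rw [div_le_iff₀ hn0, hnL, mul_assoc, ← Real.exp_add]
      have h2 : (fixc g : ℝ) ≤ F := by exact_mod_cast hg.le
      have h3 : -(κ * L) + L = (1 - κ) * L := by ring
      rw [h3]
      linarith
    have h2 : Real.sqrt ((r : ℝ) / n) ≤ Real.exp (-(κ * L)) := by
      apply Real.sqrt_le_iff.2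
      refine ⟨(Real.exp_pos _).le, ?_⟩
      rw [div_le_iff₀ hn0, hnL, ← Real.exp_nat_mul, ← Real.exp_add]
      refine hrα.trans (Real.exp_le_exp.2 ?_)
      push_cast
      have h1 : α ≤ 1 - 2 * κ := by linarith [P.hκα, P.hα]
      have := mul_le_mul_of_nonneg_right h1 hL0.le
      linarith
    have h3 : 2 * (fixc g : ℝ) / n + 14 * Real.sqrt (r / n) ≤ Real.exp (-(κ * L / 2)) := by
      have h4 : 18 * Real.exp (-(κ * L)) ≤ Real.exp (-(κ * L / 2)) := by
        calc 18 * Real.exp (-(κ * L)) ≤ Real.exp (κ * L / 2) * Real.exp (-(κ * L)) := by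
              have := hb.h4
              gcongr
          _ = Real.exp (-(κ * L / 2)) := by rw [← Real.exp_add]; congr 1; ring
      linarith
    calc (2 * (fixc g : ℝ) / n + 14 * Real.sqrt (r / n)) ^ r ≤ (Real.exp (-(κ * L / 2))) ^ r :=
          pow_le_pow_left₀ (by positivity) h3 r
      _ = ψ := by rw [← Real.exp_nat_mul, hψ]; congr 1; ring
  have hk0 : 0 < k := by
    have := P.hk2
    omega
  have hkr : (0 : ℝ) < k := by exact_mod_cast hk0
  refine ⟨t, Real.exp (-((a + 2) * m)) * Real.sqrt (2 * k) ^ (2 + 5 * g) +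
    2 ^ k * (4 * m * (m + 1) / F) ^ r + ψ, by positivity,
    moment_le2 hn P.hk2 hρ.unit m r F g hg1 hgm (a + 2) (by linarith) P.hk hVn hV' hF0 ψ hψ0
      hchar, ?_⟩
  -- numerical estimate
  refine le_trans ?_ (exp_sum_bound2 P hb hr1)
  have e0 : Real.exp a ^ (2 * t) ≤ Real.exp (κ * r * L / 4 + 2 * a) := by
    rw [← Real.exp_nat_mul]
    apply Real.exp_le_exp.2
    push_cast
    have h1 : 2 * (t : ℝ) * a ≤ 2 * (c * r * L + 1) * a := by gcongr
    have h2 := P.hca
    have h3 : 2 * (c * r * L + 1) * a = κ * r * L / 4 + 2 * a := by rw [← h2]; ring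
    linarith
  have hmt : 2 * c * r * L ≤ m := by
    rw [hm]; push_cast; linarith
  have e1 : Real.exp a ^ (2 * t) * (Real.exp (-((a + 2) * m)) * Real.sqrt (2 * k) ^ (2 + 5 * g)) ≤
      Real.exp (-(2 * c * r * L)) := by
    have h1 : Real.sqrt (2 * k) ^ (2 + 5 * g) ≤ Real.exp m := by
      refine hb.h7 m ?_
      have h2 : 2 * c * L ≤ 2 * c * r * L := by
        have : c * L ≤ c * (r * L) := by
          apply mul_le_mul_of_nonneg_left _ hc.le
          nlinarith
        linarith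
      linarith
    calc Real.exp a ^ (2 * t) * (Real.exp (-((a + 2) * m)) * Real.sqrt (2 * k) ^ (2 + 5 * g))
        ≤ Real.exp a ^ (2 * t) * (Real.exp (-((a + 2) * m)) * Real.exp m) := by gcongr
      _ = Real.exp (-(m : ℝ)) := by
          rw [← hm, ← Real.exp_nat_mul, ← Real.exp_add, ← Real.exp_add]
          congr 1
          ring
      _ ≤ _ := Real.exp_le_exp.2 (by linarith)
  have e2 : (4 * m * (m + 1) / F : ℝ) ^ r ≤ Real.exp (-(κ * r * L)) := by
    have h1 : (4 * m * (m + 1) / F : ℝ) ≤ Real.exp (-(κ * L)) := by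
      rw [div_le_iff₀ hFpos]
      calc (4 * m * (m + 1) : ℝ) ≤ 4 * ((2 * c + 3) * (r * L)) * ((2 * c + 3) * (r * L)) := by
              gcongr
              nlinarith
        _ = (4 * (2 * c + 3) ^ 2 * L ^ 2) * (r : ℝ) ^ 2 := by ring
        _ ≤ Real.exp (2 * κ * L) * Real.exp (2 * (α * L)) := by
            have := hb.h3
            gcongr
        _ = Real.exp (-(κ * L)) * Real.exp ((1 - κ) * L) := by
            rw [← Real.exp_add, ← Real.exp_add]
            congr 1
            have h2 := P.hκα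
            have h3 : α = (1 - 4 * κ) / 2 := by linarith
            rw [h3]; ring
        _ ≤ Real.exp (-(κ * L)) * F := by gcongr
    calc (4 * m * (m + 1) / F : ℝ) ^ r ≤ (Real.exp (-(κ * L))) ^ r :=
          pow_le_pow_left₀ (by positivity) h1 r
      _ = _ := by rw [← Real.exp_nat_mul]; congr 1; ring
  calc Real.exp a ^ (2 * t) * (Real.exp (-((a + 2) * m)) * Real.sqrt (2 * k) ^ (2 + 5 * g) +
        2 ^ k * (4 * m * (m + 1) / F) ^ r + ψ)
      = Real.exp a ^ (2 * t) * (Real.exp (-((a + 2) * m)) * Real.sqrt (2 * k) ^ (2 + 5 * g)) +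
        Real.exp a ^ (2 * t) * (2 ^ k * (4 * m * (m + 1) / F) ^ r + ψ) := by ring
    _ ≤ _ := by
        refine add_le_add e1 ?_
        rw [hψ]
        gcongr

/-- level tail bound -/
theorem level_tail2 {α κ a c c' : ℝ} {k : ℕ} (P : Par2 α κ a c c' k) {n : ℕ} (hn : 2 ≤ n)
    (hb : BigN2 κ a c k (Real.log n)) {r : ℕ} (hr : 0 < r)
    (hrα : (r : ℝ) ≤ Real.exp (α * Real.log n)) {D : ℕ}
    {ρ : Perm (Fin n) →* Matrix (Fin D) (Fin D) ℂ} (hρ : IsIrr ρ)
    (hf : HasFix ρ (stab n r)) (hnf : ¬ HasFix ρ (stab n (r - 1))) (θ' : ℝ) (B : ℕ)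
    (hB : 3 ≤ c' * (θ' - Real.exp (-a)) * B) :
    (Nat.card {x : Fin B → Fin k → Alt n //
      ¬ ((B * θ') • (1 : Matrix (Fin D) (Fin D) ℂ) -
        ∑ b, avgRe fun l => ρ (x b l : Perm (Fin n))).PosSemidef} : ℝ) ≤
      ((Fintype.card (Alt n) : ℝ) ^ k) ^ B * (2 ^ B * Real.exp (-(3 * r * Real.log n))) * D := by
  obtain ⟨t, M, hM0, hM1, hM2⟩ := level_moment2 P hn hb hr hrα hρ hf hnf
  have hk0 : 0 < k := by
    have := P.hk2
    omega
  set L := Real.log n with hL
  have hL0 : 0 < L := lt_of_lt_of_le one_pos hb.hL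
  have hr1 : (1 : ℝ) ≤ r := by exact_mod_cast hr
  have hc' := P.hc'
  set s : ℝ := c' * r * L with hs
  have hs0 : 0 ≤ s := by positivity
  have h1 := blocks_tail hk0 hρ (Real.exp (-a)) θ' s (Real.exp_pos _) hs0 t M hM0 hM1 B
  refine h1.trans ?_
  refine mul_le_mul_of_nonneg_right ?_ (Nat.cast_nonneg _)
  refine mul_le_mul_of_nonneg_left ?_ (by positivity)
  have h2 : (Real.exp (-a))⁻¹ ^ (2 * t) * Real.exp s * M ≤ Real.exp (s * Real.exp (-a)) := by
    rw [← Real.exp_neg, neg_neg]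
    calc Real.exp a ^ (2 * t) * Real.exp s * M = Real.exp s * (Real.exp a ^ (2 * t) * M) := by ring
      _ ≤ Real.exp s * Real.exp (-(c' * r * L)) := by gcongr
      _ = 1 := by rw [← Real.exp_add, hs]; simp
      _ ≤ _ := Real.one_le_exp (by positivity)
  calc (Real.exp (s * Real.exp (-a)) + (Real.exp (-a))⁻¹ ^ (2 * t) * Real.exp s * M) ^ B *
        Real.exp (-(s * (B * θ')))
      ≤ (2 * Real.exp (s * Real.exp (-a))) ^ B * Real.exp (-(s * (B * θ'))) := by
        gcongr
        linarith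
    _ = 2 ^ B * Real.exp (-(s * ((θ' - Real.exp (-a)) * B))) := by
        rw [mul_pow, ← Real.exp_nat_mul, mul_assoc, ← Real.exp_add]
        congr 2
        ring
    _ ≤ 2 ^ B * Real.exp (-(3 * r * L)) := by
        refine mul_le_mul_of_nonneg_left (Real.exp_le_exp.2 ?_) (by positivity)
        rw [hs]
        have h3 : 3 * (r * L) ≤ (c' * (θ' - Real.exp (-a)) * B) * (r * L) :=
          mul_le_mul_of_nonneg_right hB (by positivity)
        nlinarith

end Pool.Agent.Helper6.H
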