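import Pool.Agent.Helper6.H.Ingredients

/-! Words which are not generic are few; generic words have few fixed points. -/

set_option linter.unusedSectionVars false

namespace Pool.Agent.Helper6.H

open Finset Equiv Pool.Agent.Helper90.W2

variable {n k : ℕ}

/-- a generic element of the free group -/
def Gen (d : Fin k × Bool) (g : ℕ) (γ : FreeGroup (Fin k)) : Prop :=
  γ.toWord.length + 2 + 2 * g + 2 * (2 * g + 1) * (γ.toWord.length / (60 * g)) <
    2 * (firstPos (seq d γ.toWord) g γ.toWord.length).card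

theorem Gen.pos {d : Fin k × Bool} {g : ℕ} {γ : FreeGroup (Fin k)}
    (h : Gen d g γ) : 0 < γ.toWord.length := by
  by_contra hc
  have h0 : γ.toWord.length = 0 := by omega
  unfold Gen at h
  rw [h0] at h
  have h1 : (firstPos (seq d γ.toWord) g 0).card ≤ 1 := by
    unfold firstPos
    refine (Finset.card_filter_le _ _).trans ?_
    rw [Finset.card_range]
    omega
  omega

theorem ne_flip_of {r : ℕ → Fin k × Bool} {L : ℕ}
    (h : ∀ t, t + 1 < L → ¬ ((r (t + 1)).1 = (r t).1 ∧ (r (t + 1)).2 = !(r t).2)) :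
    ∀ t, t + 1 < L → r (t + 1) ≠ flip (r t) := by
  intro t ht heq
  apply h t ht
  rw [heq]
  exact ⟨rfl, rfl⟩

theorem fixed_bound (d : Fin k × Bool) (γ : FreeGroup (Fin k)) (m f F g : ℕ) (hg : 1 ≤ g)
    (hγ : Gen d g γ) (hm : γ.toWord.length ≤ m) (hV : 2 * (f * (m + 1)) ≤ n)
    (hF : 240 * (f * (g * (m + 1))) ≤ F) (hF0 : 0 < F) :
    (Nat.card {x : Fin k → Perm (Fin n) //
      F ≤ (univ.filter fun i : Fin n => FreeGroup.lift x γ i = i).card} : ℝ) ≤
      (n.factorial : ℝ) ^ k * (4 * m * (m + 1) / F) ^ f := by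
  have hr := ne_flip_of (seq_reduced d γ.toWord FreeGroup.isReduced_toWord)
  have h1 := count_ext (n := n) (seq d γ.toWord) γ.toWord.length m f F hγ.pos hm hV hF0 hr
    (fun x hx j hj ps => ext_many (seq d γ.toWord) γ.toWord.length m f F g hγ.pos hm hg hr hγ hF
      x hx j hj ps)
  have h2 : ∀ (x : Fin k → Equiv.Perm (Fin n)) (i : Fin n),
      FreeGroup.lift x γ i = traj (seq d γ.toWord) x i γ.toWord.length := by
    intro x i
    rw [← prod_eq_traj]
    conv_lhs => rw [← FreeGroup.mk_toWord (x := γ)]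
    rw [FreeGroup.lift_mk]
  simp only [h2]
  exact h1

theorem firstPos_congr {r r' : ℕ → Fin k × Bool} {g L : ℕ} (h : ∀ t < L, r t = r' t) :
    firstPos r g L = firstPos r' g L := by
  unfold firstPos
  refine Finset.filter_congr fun t ht => ?_
  have ht' := Finset.mem_range.1 ht
  refine forall_congr' fun t' => forall_congr' fun htt => ?_
  have e1 : (∀ i < g, r (t' + i) = r (t + i)) ↔ (∀ i < g, r' (t' + i) = r' (t + i)) := by
    refine forall_congr' fun i => forall_congr' fun hi => ?_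
    rw [h (t' + i) (by omega), h (t + i) (by omega)]
  have e2 : (∀ i < g, r (t' + i) = flip (r (t + g - 1 - i))) ↔
      (∀ i < g, r' (t' + i) = flip (r' (t + g - 1 - i))) := by
    refine forall_congr' fun i => forall_congr' fun hi => ?_
    rw [h (t' + i) (by omega), h (t + g - 1 - i) (by omega)]
  rw [e1, e2]

/-- threshold -/
def thr (g l : ℕ) : ℕ := (l + 2 + 2 * g + 2 * (2 * g + 1) * (l / (60 * g))) / 2

theorem bad_card (d : Fin k × Bool) (g l : ℕ) (hk : 0 < k) (hg : 0 < g)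
    (S : Finset (FreeGroup (Fin k))) (hS : ∀ γ ∈ S, γ.toWord.length = l ∧ ¬ Gen d g γ) :
    (S.card : ℝ) ≤ 4 ^ l * (2 * k) ^ (thr g l + g) * (2 * l + 2) ^ (l / g + 1) := by
  classical
  have h1 := lz_count (k := k) l g (thr g l) hk hg d
  refine le_trans ?_ h1
  rw [← Nat.card_eq_finsetCard S]
  have hprop : ∀ γ : S, (∀ t (h : t + 1 < l),
      (fun t : Fin l => seq d γ.1.toWord t) ⟨t + 1, h⟩ ≠
        flip ((fun t : Fin l => seq d γ.1.toWord t) ⟨t, by omega⟩)) ∧
      (firstPos (fun t => if h : t < l then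
        (fun t : Fin l => seq d γ.1.toWord t) ⟨t, h⟩ else d) g l).card ≤ thr g l := by
    intro γ
    obtain ⟨h2, h3⟩ := hS γ.1 γ.2
    refine ⟨fun t ht => ?_, ?_⟩
    · exact ne_flip_of (seq_reduced d γ.1.toWord FreeGroup.isReduced_toWord) t (by omega)
    · have h4 : firstPos (fun t => if h : t < l then
          (fun t : Fin l => seq d γ.1.toWord t) ⟨t, h⟩ else d) g l =
          firstPos (seq d γ.1.toWord) g l :=
        firstPos_congr fun t ht => by rw [dif_pos ht]
      rw [h4]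
      unfold Gen at h3
      rw [h2] at h3
      unfold thr
      omega
  have h5 := Nat.card_le_card_of_injective (fun γ : S =>
    (⟨fun t : Fin l => seq d γ.1.toWord t, hprop γ⟩ : {v : Fin l → Fin k × Bool //
      (∀ t (h : t + 1 < l), v ⟨t + 1, h⟩ ≠ flip (v ⟨t, by omega⟩)) ∧
      (firstPos (fun t => if h : t < l then v ⟨t, h⟩ else d) g l).card ≤ thr g l})) (by
    intro γ γ' h
    have h6 := congrArg Subtype.val h
    simp only at h6
    apply Subtype.ext
    apply FreeGroup.toWord_injective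
    have h7 : γ.1.toWord.reverse = γ'.1.toWord.reverse := by
      apply List.ext_getElem
      · rw [List.length_reverse, List.length_reverse, (hS γ.1 γ.2).1, (hS γ'.1 γ'.2).1]
      · intro i hi hi'
        have hil : i < l := by
          rw [List.length_reverse, (hS γ.1 γ.2).1] at hi; exact hi
        have h8 := congrFun h6 ⟨i, hil⟩
        unfold seq at h8
        rw [List.getD_eq_getElem _ _ hi, List.getD_eq_getElem _ _ hi'] at h8
        exact h8
    exact List.reverse_injective h7)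
  exact_mod_cast h5

/-- words that are not generic -/
theorem bad_words (d : Fin k × Bool) (m g : ℕ) (hk : 0 < k) (hg : 0 < g) :
    (Nat.card {w : Fin m → Fin k × Bool // ¬ Gen d g (FreeGroup.mk (List.ofFn w))} : ℝ) ≤
      ∑ l ∈ range (m + 1), 4 ^ l * (2 * k) ^ (thr g l + g) * (2 * l + 2) ^ (l / g + 1) *
        ((2 * Real.sqrt (2 * k)) ^ m / Real.sqrt (2 * k) ^ l) := by
  classical
  have hK : 0 < Real.sqrt (2 * k) := Real.sqrt_pos.2 (by positivity)
  set K := Real.sqrt (2 * k) with hKdef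
  rw [Nat.card_eq_fintype_card, Fintype.card_subtype]
  set W := univ.filter fun w : Fin m → Fin k × Bool => ¬ Gen d g (FreeGroup.mk (List.ofFn w))
    with hW
  set S := W.image fun w => (FreeGroup.mk (List.ofFn w) : FreeGroup (Fin k)) with hS
  have h1 : W.card = ∑ γ ∈ S, (W.filter fun w => FreeGroup.mk (List.ofFn w) = γ).card :=
    Finset.card_eq_sum_card_image _ _
  have h2 : ∀ γ ∈ S, ((W.filter fun w => FreeGroup.mk (List.ofFn w) = γ).card : ℝ) ≤
      (2 * K) ^ m / K ^ γ.toWord.length := by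
    intro γ _
    rw [le_div_iff₀ (by positivity)]
    refine le_trans ?_ (Pool.Agent.Helper90.W1.N_bound hk m γ)
    have h3 : (W.filter fun w => FreeGroup.mk (List.ofFn w) = γ).card ≤
        Pool.Agent.Helper90.W1.N m γ := by
      unfold Pool.Agent.Helper90.W1.N
      apply Finset.card_le_card
      intro w hw
      exact Finset.mem_filter.2 ⟨Finset.mem_univ _, (Finset.mem_filter.1 hw).2⟩
    have h4 : ((W.filter fun w => FreeGroup.mk (List.ofFn w) = γ).card : ℝ) ≤
        (Pool.Agent.Helper90.W1.N m γ : ℝ) := by exact_mod_cast h3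
    exact mul_le_mul_of_nonneg_right h4 (by positivity)
  have hlen : ∀ γ ∈ S, γ.toWord.length ∈ range (m + 1) := by
    intro γ hγ
    obtain ⟨w, _, rfl⟩ := Finset.mem_image.1 hγ
    rw [Finset.mem_range]
    have h5 : (FreeGroup.mk (List.ofFn w)).toWord.length ≤ (List.ofFn w).length := by
      rw [FreeGroup.toWord_mk]
      exact FreeGroup.Red.length_le FreeGroup.reduce.red
    rw [List.length_ofFn] at h5
    omega
  have h3 : (W.card : ℝ) ≤ ∑ γ ∈ S, (2 * K) ^ m / K ^ γ.toWord.length := by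
    rw [h1]
    push_cast
    exact Finset.sum_le_sum h2
  refine h3.trans ?_
  rw [← Finset.sum_fiberwise_of_maps_to hlen]
  refine Finset.sum_le_sum fun l _ => ?_
  have h4 : ∑ γ ∈ S.filter (fun γ => γ.toWord.length = l), (2 * K) ^ m / K ^ γ.toWord.length =
      ((S.filter fun γ => γ.toWord.length = l).card : ℝ) * ((2 * K) ^ m / K ^ l) := by
    rw [← nsmul_eq_mul, ← Finset.sum_const]
    refine Finset.sum_congr rfl fun γ hγ => ?_
    rw [(Finset.mem_filter.1 hγ).2]
  rw [h4]
  refine mul_le_mul_of_nonneg_right ?_ (by positivity)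
  refine bad_card d g l hk hg _ fun γ hγ => ?_
  obtain ⟨h5, h6⟩ := Finset.mem_filter.1 hγ
  refine ⟨h6, ?_⟩
  obtain ⟨w, hw, rfl⟩ := Finset.mem_image.1 h5
  exact (Finset.mem_filter.1 hw).2

/-- the fraction of words that are not generic -/
theorem bad_frac (d : Fin k × Bool) (m g : ℕ) (hk : 2 ≤ k) (hg : 0 < g) (hgm : 2 * m + 2 ≤ 2 ^ g)
    (b : ℝ) (hb : 0 ≤ b) (hkb : (32 * Real.exp b) ^ 10 ≤ Real.sqrt (2 * k) ^ 9) :
    ((2 * (k : ℝ))⁻¹) ^ m *
      (Nat.card {w : Fin m → Fin k × Bool // ¬ Gen d g (FreeGroup.mk (List.ofFn w))} : ℝ) ≤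
      Real.exp (-(b * m)) * Real.sqrt (2 * k) ^ (2 + 5 * g) := by
  have hk0 : 0 < k := by omega
  have hKK : Real.sqrt (2 * k) * Real.sqrt (2 * k) = 2 * k := Real.mul_self_sqrt (by positivity)
  have hK2 : 2 ≤ Real.sqrt (2 * k) := by
    apply Real.le_sqrt_of_sq_le
    have : (2 : ℝ) ≤ k := by exact_mod_cast hk
    linarith
  set K := Real.sqrt (2 * k) with hK
  have hK0 : 0 < K := by linarith
  have hK1 : 1 ≤ K := by linarith
  -- each term of the sum
  have hterm : ∀ l ∈ range (m + 1), (4 : ℝ) ^ l * (2 * k) ^ (thr g l + g) *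
      (2 * l + 2) ^ (l / g + 1) * ((2 * K) ^ m / K ^ l) ≤
      8 ^ m * (2 ^ (m + g) * (K ^ (2 + 4 * g + m / 10) * K ^ m)) := by
    intro l hl
    have hlm : l ≤ m := by
      have := Finset.mem_range.1 hl
      omega
    have h1 : (2 * (l : ℝ) + 2) ^ (l / g + 1) ≤ 2 ^ (m + g) := by
      calc (2 * (l : ℝ) + 2) ^ (l / g + 1) ≤ (2 ^ g) ^ (l / g + 1) := by
            apply pow_le_pow_left₀ (by positivity)
            have h2 : ((2 * m + 2 : ℕ) : ℝ) ≤ ((2 ^ g : ℕ) : ℝ) := by exact_mod_cast hgm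
            push_cast at h2
            have h3 : (l : ℝ) ≤ m := by exact_mod_cast hlm
            linarith
        _ = 2 ^ (g * (l / g + 1)) := by rw [← pow_mul]
        _ ≤ 2 ^ (m + g) := by
            apply pow_le_pow_right₀ (by norm_num)
            have := Nat.mul_div_le l g
            rw [mul_add, mul_one]
            omega
    have h2 : (2 * (k : ℝ)) ^ (thr g l + g) ≤ K ^ (2 + 4 * g + m / 10) * K ^ l := by
      rw [← hKK, ← sq, ← pow_mul, ← pow_add]
      apply pow_le_pow_right₀ hK1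
      have h3 : 2 * thr g l ≤ l + 2 + 2 * g + 2 * (2 * g + 1) * (l / (60 * g)) := by
        unfold thr; omega
      have h4 : 2 * (2 * g + 1) * (l / (60 * g)) ≤ m / 10 := by
        rw [Nat.le_div_iff_mul_le (by norm_num)]
        have h5 : 60 * g * (l / (60 * g)) ≤ l := Nat.mul_div_le _ _
        have h6 : 2 * (2 * g + 1) ≤ 6 * g := by omega
        calc 2 * (2 * g + 1) * (l / (60 * g)) * 10 ≤ 6 * g * (l / (60 * g)) * 10 := by gcongr
          _ = 60 * g * (l / (60 * g)) := by ring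
          _ ≤ m := h5.trans hlm
      omega
    have h3 : (4 : ℝ) ^ l ≤ 4 ^ m := pow_le_pow_right₀ (by norm_num) hlm
    calc (4 : ℝ) ^ l * (2 * k) ^ (thr g l + g) * (2 * l + 2) ^ (l / g + 1) * ((2 * K) ^ m / K ^ l)
        ≤ 4 ^ m * (K ^ (2 + 4 * g + m / 10) * K ^ l) * 2 ^ (m + g) * ((2 * K) ^ m / K ^ l) := by
          gcongr
      _ = 8 ^ m * (2 ^ (m + g) * (K ^ (2 + 4 * g + m / 10) * K ^ m)) := by
          rw [show (8 : ℝ) = 4 * 2 by norm_num, mul_pow 4 2, mul_pow 2 K]
          field_simp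
  have hsum := (bad_words d m g hk0 hg).trans (Finset.sum_le_sum hterm)
  rw [Finset.sum_const, Finset.card_range, nsmul_eq_mul] at hsum
  have hm2 : ((m + 1 : ℕ) : ℝ) ≤ 2 ^ m := by
    have := Nat.lt_two_pow_self (n := m)
    exact_mod_cast this
  have hfinal : (32 : ℝ) ^ m * K ^ (m / 10) ≤ Real.exp (-(b * m)) * K ^ m := by
    have h1 : ((32 : ℝ) ^ m * K ^ (m / 10)) ^ 10 ≤ (Real.exp (-(b * m)) * K ^ m) ^ 10 := by
      have h2 : (K ^ (m / 10)) ^ 10 ≤ K ^ m := by
        rw [← pow_mul]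
        exact pow_le_pow_right₀ hK1 (Nat.div_mul_le_self m 10)
      calc ((32 : ℝ) ^ m * K ^ (m / 10)) ^ 10 = (32 ^ 10) ^ m * (K ^ (m / 10)) ^ 10 := by
            rw [mul_pow, ← pow_mul, ← pow_mul 32, mul_comm m 10]
        _ ≤ (32 ^ 10) ^ m * K ^ m := by gcongr
        _ = Real.exp (-(b * m)) ^ 10 * (((32 * Real.exp b) ^ 10) ^ m * K ^ m) := by
            have h3 : Real.exp (-(b * m)) ^ 10 * ((Real.exp b) ^ 10) ^ m = 1 := by
              rw [← Real.exp_nat_mul, ← Real.exp_nat_mul, ← Real.exp_nat_mul, ← Real.exp_add]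
              rw [← Real.exp_zero]
              congr 1
              push_cast
              ring
            calc (32 ^ 10) ^ m * K ^ m = (Real.exp (-(b * m)) ^ 10 * ((Real.exp b) ^ 10) ^ m) *
                  ((32 ^ 10) ^ m * K ^ m) := by rw [h3, one_mul]
              _ = _ := by rw [mul_pow 32 (Real.exp b) 10, mul_pow (32 ^ 10) (Real.exp b ^ 10) m]
                          ring
        _ ≤ Real.exp (-(b * m)) ^ 10 * ((K ^ 9) ^ m * K ^ m) := by gcongr
        _ = (Real.exp (-(b * m)) * K ^ m) ^ 10 := by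
            rw [mul_pow, ← mul_pow (K ^ 9) K m, ← pow_succ, ← pow_mul, ← pow_mul, mul_comm m 10]
    exact le_of_pow_le_pow_left₀ (by norm_num) (by positivity) h1
  have h2g : (2 : ℝ) ^ g ≤ K ^ g := by gcongr
  calc ((2 * (k : ℝ))⁻¹) ^ m * _ ≤ ((2 * (k : ℝ))⁻¹) ^ m * (((m + 1 : ℕ) : ℝ) *
        (8 ^ m * (2 ^ (m + g) * (K ^ (2 + 4 * g + m / 10) * K ^ m)))) := by gcongr
    _ ≤ ((2 * (k : ℝ))⁻¹) ^ m * (2 ^ m *
        (8 ^ m * (2 ^ (m + g) * (K ^ (2 + 4 * g + m / 10) * K ^ m)))) := by gcongr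
    _ = (K ^ m)⁻¹ * ((32 ^ m * K ^ (m / 10)) * (2 ^ g * K ^ (2 + 4 * g))) := by
        rw [← hKK, show (32 : ℝ) = 2 * 8 * 2 by norm_num, mul_pow (2 * 8) 2 m, mul_pow 2 8 m,
          inv_pow, mul_pow K K m, pow_add 2 m g, pow_add K (2 + 4 * g) (m / 10)]
        field_simp
    _ ≤ (K ^ m)⁻¹ * ((Real.exp (-(b * m)) * K ^ m) * (K ^ g * K ^ (2 + 4 * g))) := by gcongr
    _ = Real.exp (-(b * m)) * K ^ (2 + 5 * g) := by
        rw [← pow_add, show g + (2 + 4 * g) = 2 + 5 * g by ring]
        field_simp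

end Pool.Agent.Helper6.H
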